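import Pool.Agent.Helper91.GU.Defs

/-!
# Project GU: block A (patching)

Every docstring is a complete proof.  For each `StX` the module proves `theorem hX : StX.{u}` with the
listed earlier statements as hypotheses (and no others unless needed).
-/

set_option autoImplicit false

namespace Pool.Agent.Helper91.GU

open Polynomial

universe u

/-- A0. The patching square exists: `Afi = Localization.Away (f * i)` with the canonical maps
(`IsLocalization.Away.lift` or `IsLocalization.map`; the two iterated localisations by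
`IsLocalization.Away` transitivity lemmas, e.g. `IsLocalization.Away.mul`-type lemmas or by hand).
Hypotheses: none. -/
def StA0 : Prop := ∀ (A : Type u) [CommRing A] (f i : A), IsCoprime f i →
  ∃ (Afi : Type u) (_ : CommRing Afi) (_ : Algebra A Afi) (_ : Algebra (Localization.Away f) Afi)
    (_ : Algebra (Localization.Away i) Afi),
    IsSq A (Localization.Away f) (Localization.Away i) Afi f i

/-- A1. Clearing denominators.  `h ∈ GL_n(A_s[X])`, `h(0) = 1`, `v h = w`, `v(0) = w(0)`.  For large `N`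
the matrix `h(s^N X)` is the image of some `H ∈ GL_n(A[X])` with `H(0) = 1` and
`v(s^N X) H = w(s^N X)`.
Proof. Let `h' = h⁻¹` (also `h'(0) = 1`).  Every coefficient of `X^k`, `k ≥ 1`, of an entry of `h`, `h'` becomes
integral after multiplication by `s^{N₁}` for some `N₁`: so for `N ≥ N₁` there are `H_N`, `H'_N` over `A[X]`, value
`1` at `0`, with images `h(s^N X)`, `h'(s^N X)`; choose `H_N := H(s^{N-N₁} X)`, `H := H_{N₁}`, same for `H'`.  The
entries of `H H' - 1`, `H' H - 1` and of `v(s^{N₁}X) H - w(s^{N₁}X)` vanish at `X = 0` and map to `0` in `A_s[X]`, so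
each coefficient is killed by a power `s^{N₂}` and they vanish after `X ↦ s^{N₂} X` (the coefficient of `X^k` is
multiplied by `s^{k N₂}`, `k ≥ 1`).  `N₀ = N₁ + N₂`.
Hypotheses: none. -/
def StA1 : Prop := ∀ (A As : Type u) [CommRing A] [CommRing As] [Algebra A As] (s : A)
  [IsLocalization.Away s As] (n : Type) [Fintype n] [DecidableEq n] (h : Matrix n n As[X])
  (v w : n → A[X]), IsUnit h.det → h.map (eval 0) = 1 →
  Matrix.vecMul (fun j => (v j).map (algebraMap A As)) h = (fun j => (w j).map (algebraMap A As)) →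
  (∀ j, (v j).eval 0 = (w j).eval 0) →
  ∃ N₀ : ℕ, ∀ N, N₀ ≤ N → ∃ H : Matrix n n A[X], IsUnit H.det ∧ H.map (eval 0) = 1 ∧
    H.map (Polynomial.map (algebraMap A As)) =
      h.map (fun P => P.comp (C (algebraMap A As (s ^ N)) * X)) ∧
    Matrix.vecMul (fun j => (v j).comp (C (s ^ N) * X)) H = fun j => (w j).comp (C (s ^ N) * X)

/-- A2. Splitting.  `h(X) ∈ GL_n(A_{fi}[X])`, `h(0) = 1`, `v h = v` with `v ∈ A^n`.  Then
`h(1) = s_f s_i` with `s_f ∈ GL_n(A_f)`, `s_i ∈ GL_n(A_i)` fixing `v`.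
Proof. `k(X,Z) = h(X+Z) h(X)⁻¹ ∈ GL_n(A_{fi}[X][Z])`, `k(X,0) = 1`, `v k = v`.  `A_{fi}[X]` is the localisation of
`A_f[X]` at `i` (`Polynomial.isLocalization`), so A1 (with `A := A_f[X]`, `s := i`, constant rows `v`) shows: for large
`N` `k(X, i^N Z)` is the image of an invertible matrix over `A_f[X][Z]` fixing `v`.  A1 with `A := A_i`, `s := f`: for
large `N` `h(f^N X)` is the image of an invertible matrix over `A_i[X]` fixing `v`.  `f^N`, `i^N` are coprime:
`b = f^N b'`, `1 - b = i^N z`, `b', z ∈ A`.  `h(1) = k(b, i^N z) · h(f^N b')`: evaluate (`X = b`, `Z = z` resp.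
`X = b'`).
Hypotheses: hA1. -/
def StA2 : Prop := ∀ (A Af Ai Afi : Type u) [CommRing A] [CommRing Af] [CommRing Ai] [CommRing Afi]
  [Algebra A Af] [Algebra A Ai] [Algebra A Afi] [Algebra Af Afi] [Algebra Ai Afi] (f i : A),
  IsSq A Af Ai Afi f i → ∀ (n : Type) [Fintype n] [DecidableEq n] (v : n → A)
  (h : Matrix n n Afi[X]), IsUnit h.det → h.map (eval 0) = 1 →
  Matrix.vecMul (fun j => C (algebraMap A Afi (v j))) h = (fun j => C (algebraMap A Afi (v j))) →
  ∃ (sf : Matrix n n Af) (si : Matrix n n Ai), IsUnit sf.det ∧ IsUnit si.det ∧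
    Matrix.vecMul (mp (algebraMap A Af) v) sf = mp (algebraMap A Af) v ∧
    Matrix.vecMul (mp (algebraMap A Ai) v) si = mp (algebraMap A Ai) v ∧
    h.map (eval 1) = sf.map (algebraMap Af Afi) * si.map (algebraMap Ai Afi)

/-- A3. Gluing.  Elements of `A_f`, `A_i` with the same image in `A_{fi}` come from a unique element of `A`.
Proof. `x_f = a/f^k`, `x_i = b/i^k` (common `k`), `(fi)^m (a i^k - b f^k) = 0` in `A`; replacing `a` by `a f^m`, `b` by
`b i^m`, `k` by `k+m` we may assume `a i^k = b f^k`.  `p f^k + q i^k = 1`: `x = p a + q b` satisfies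
`f^k x = p f^k a + q f^k b = (p f^k + q i^k) a = a` and `i^k x = b`.  Injectivity: if `f^k x = 0 = i^k x` then `x = 0`.
Hypotheses: none. -/
def StA3 : Prop := ∀ (A Af Ai Afi : Type u) [CommRing A] [CommRing Af] [CommRing Ai] [CommRing Afi]
  [Algebra A Af] [Algebra A Ai] [Algebra A Afi] [Algebra Af Afi] [Algebra Ai Afi] (f i : A),
  IsSq A Af Ai Afi f i →
  (∀ (xf : Af) (xi : Ai), algebraMap Af Afi xf = algebraMap Ai Afi xi →
    ∃ x : A, algebraMap A Af x = xf ∧ algebraMap A Ai x = xi) ∧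
  (∀ x : A, algebraMap A Af x = 0 → algebraMap A Ai x = 0 → x = 0)

/-- A4. The patching lemma PL.  `v, w ∈ A^n`, `v g_f = w` over `A_f`, `v g_i = w` over `A_i`, and a path `h(X)` over
`A_{fi}[X]` which fixes `v`, `h(0) = 1`, `h(1) g_i = g_f`.  Then `v ~ w` over `A`.
Proof. A2: `h(1) = s_f s_i`.  `s_f⁻¹ g_f` and `s_i g_i` have the same image in `GL_n(A_{fi})`; glue the entries of
`s_f⁻¹ g_f`, `s_i g_i` and of the inverses `g_f⁻¹ s_f`, `g_i⁻¹ s_i⁻¹` by A3 to matrices `g, g'` over `A`; `g g' = 1` and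
`v g = w` hold in `A_f` and in `A_i`, hence in `A` (A3, injectivity).  Note `v s_f⁻¹ = v`.
Hypotheses: hA2 hA3. -/
def StA4 : Prop := ∀ (A Af Ai Afi : Type u) [CommRing A] [CommRing Af] [CommRing Ai] [CommRing Afi]
  [Algebra A Af] [Algebra A Ai] [Algebra A Afi] [Algebra Af Afi] [Algebra Ai Afi] (f i : A),
  IsSq A Af Ai Afi f i → ∀ (n : Type) [Fintype n] [DecidableEq n] (v w : n → A)
  (gf : Matrix n n Af) (gi : Matrix n n Ai) (h : Matrix n n Afi[X]),
  IsUnit gf.det → IsUnit gi.det → IsUnit h.det →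
  Matrix.vecMul (mp (algebraMap A Af) v) gf = mp (algebraMap A Af) w →
  Matrix.vecMul (mp (algebraMap A Ai) v) gi = mp (algebraMap A Ai) w →
  Matrix.vecMul (fun j => C (algebraMap A Afi (v j))) h = (fun j => C (algebraMap A Afi (v j))) →
  h.map (eval 0) = 1 →
  h.map (eval 1) * gi.map (algebraMap Ai Afi) = gf.map (algebraMap Af Afi) → REq v w

/-- A5. Quillen-Vaserstein local-global principle for `GL_n` orbits.
Proof. `J = {s : ∀ a, V(T + s a Y) ~ V(T) over A[T,Y]}` (two polynomial variables) is an ideal: for `s, s' ∈ J`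
substitute `T ↦ T + sY` in the relation for `s'`.  Let `𝔪` be maximal, `g ∈ GL_n(A_𝔪[T])`, `V(T) g(T) = V(0)`; it lives
over `A_s[T]` for some `s ∉ 𝔪`.  `h(T,Y) = g(T+Y) g(T)⁻¹` satisfies `h(T,0) = 1`, `V(T+Y) h = V(T)`; A1 over `A[T]`
gives `V(T + s^N Y) ~ V(T)` over `A[T][Y]` for large `N`, so `s^N ∈ J`.  Hence `J = A`; take `s = 1`, then `T = 0`.
(helper78 proves this one.)
Hypotheses: hA1. -/
def StA5 : Prop := ∀ (A : Type u) [CommRing A] (n : Type) [Fintype n] [DecidableEq n] (V : n → A[X]),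
  (∀ (𝔪 : Ideal A) [𝔪.IsMaximal],
    REq (fun j => (V j).map (algebraMap A (Localization.AtPrime 𝔪)))
      (fun j => C (algebraMap A (Localization.AtPrime 𝔪) ((V j).eval 0)))) →
  REq V (fun j => C ((V j).eval 0))

end Pool.Agent.Helper91.GU
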