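import Pool.Agent.Helper91.GU.Defs
import Pool.Agent.Helper91.GU.StA

/-!
# Project GU: block B (rows with the same support)

Notation in the docstrings: `θ(c;t) = 1 + tᵀc = theta c t`, `U(y) = lowU y`, `V(x) = upV x`,
`(a;c)U(y) = (a - c·y; c)`, `(a;c)V(x) = (a; c - a x)`, `U(y)U(y') = U(y+y')`, `V(x)V(x') = V(x+x')`.
`1+e` = block diagonal matrix with blocks `1` (size 1) and `e` (size r).
-/

set_option autoImplicit false

namespace Pool.Agent.Helper91.GU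

open Polynomial

universe u

/-- B0. Formal properties of `HId` and `Elem`.
Proof. Products and inverses of paths; `M ∈ Elem` is a product of transvections `1 + c e_ij`, path `1 + cX e_ij`; a path
has `det` a unit of `A[X]` whose value at `1` is `det M`.  Conjugation: `g P g⁻¹`.  Images: map the path.  The inverse
of a transvection is a transvection, `det = 1`.  Lifting along a surjective map: lift the `c`.
Hypotheses: none. -/
def StB0 : Prop := ∀ (A B : Type u) [CommRing A] [CommRing B] (φ : A →+* B) (n : Type) [Fintype n]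
  [DecidableEq n],
  (∀ M N : Matrix n n A, HId M → HId N → HId (M * N)) ∧
  HId (1 : Matrix n n A) ∧
  (∀ M : Matrix n n A, HId M → IsUnit M.det ∧ HId M⁻¹) ∧
  (∀ (M g : Matrix n n A), HId M → IsUnit g.det → HId (g * M * g⁻¹) ∧ HId (g⁻¹ * M * g)) ∧
  (∀ M : Matrix n n A, HId M → HId (M.map φ)) ∧
  (∀ M ∈ Elem n A, HId M ∧ M.det = 1 ∧ M⁻¹ ∈ Elem n A ∧ M.transpose ∈ Elem n A ∧
    M.map φ ∈ Elem n B) ∧
  (Function.Surjective φ → ∀ M ∈ Elem n B, ∃ M' ∈ Elem n A, M'.map φ = M)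

/-- B1. LEMMA H1.  `f, i` coprime; over `A_i`: `v₀ - 1 ∈ (c)`, `w₀ - 1 ∈ (c')`; over `A_f`: `c' = c e` with `e` homotopic
to `1`, `w₀ - v₀ ∈ (c')`.  Then `(v₀;c) ~ (w₀;c')`.
Proof. Take the square of A0.  Over `A_i`: `v₀ - 1 = c·y`, `w₀ - 1 = c'·y'`, `g_i = U(y)V(c)V(-c')U(-y')`
(`(v₀;c) → (1;c) → (1;0) → (1;c') → (w₀;c')`).  Over `A_f`: `w₀ - v₀ = c'·q`, `g_f = (1+e)U(-q)`.
Over `A_{fi}` put `τ = U(y)V(c)`, so `(v₀;c) τ = (1;0)`, and `a = e⁻¹y + q - y'` (column).  Then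
`τ⁻¹ g_f g_i⁻¹ τ = V(-c)U(-y)(1+e)U(-q)U(y')V(c') = (1+e) V(-c') U(-a) V(c') = (1+e)·[[1,0],[aᵀ, 1 - aᵀc']]`
(use `U(-y)(1+e) = (1+e)U(-e⁻¹y)`, `V(-c)(1+e) = (1+e)V(-c')`) and
`c'·a = c·y + (w₀ - v₀) - (w₀ - 1) = 0`.  With a path `e(X)` the matrix
`h(X) = τ (1+e(X)) [[1,0],[X aᵀ, 1 - X aᵀc']] τ⁻¹` is invertible (`(1 - X aᵀc')(1 + X aᵀc') = 1`), fixes `(v₀;c)`
(because the middle factors fix `(1;0)`), `h(0) = 1`, `h(1) g_i = g_f`.  Apply A4.
Hypotheses: hA0 hA4 hB0. -/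
def StB1 : Prop := ∀ (A : Type u) [CommRing A] (f i : A), IsCoprime f i → ∀ (r : ℕ) (v₀ w₀ : A)
  (c c' : Fin r → A),
  algebraMap A (Localization.Away i) v₀ - 1 ∈ idl (mp (algebraMap A (Localization.Away i)) c) →
  algebraMap A (Localization.Away i) w₀ - 1 ∈ idl (mp (algebraMap A (Localization.Away i)) c') →
  (∃ e : Matrix (Fin r) (Fin r) (Localization.Away f), HId e ∧
    Matrix.vecMul (mp (algebraMap A (Localization.Away f)) c) e =
      mp (algebraMap A (Localization.Away f)) c') →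
  algebraMap A (Localization.Away f) w₀ - algebraMap A (Localization.Away f) v₀ ∈
    idl (mp (algebraMap A (Localization.Away f)) c') →
  REq (row v₀ c) (row w₀ c')

/-- B2. LEMMA FR (framings).  `r ≥ 2`, `I = (c)`, `c'_j - c_j ∈ I²`.  Then over `A_f` for some `f ∈ 1 + I`: `c' = c e`,
`e` elementary.
Proof. One coordinate `j` after the other.  Invariant: over `A_f` the current row `d` generates `I A_f`, is
elementarily equivalent to `c`, and `c'_l - d_l ∈ I² A_f` for all `l`, `= 0` for the treated `l`.  Step for `j`: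
`c'_j - d_j = ∑_l ν_l d_l`, `ν_l ∈ I A_f`, `ν_j = ∑_l s_l d_l`.  Enlarge `f` (multiply by a numerator of
`a = 1 + s_j d_j`, which lies in `1 + I`) so that `a` is a unit.  For some `l ≠ j` right multiplication of
`(d_j, d_l)` by `[[a, b],[0, a⁻¹]]`, `b = d_l s_j a⁻¹`, gives `(a d_j, d_l)`; this matrix is elementary (Whitehead:
`diag(a,a⁻¹)` is a product of four transvections).  Add `s_l d_j` times `d_l` for all `l ≠ j`: the `j`-th entry is now
`d_j(1 + ν_j)`.  Add `ν_l` times `d_l` (`l ≠ j`): it is `c'_j`.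
(To avoid changing rings: work with `f`-powers, or first show the statement for one coordinate and compose
`Localization.Away f → Localization.Away (f f')`.)
Hypotheses: hB0. -/
def StB2 : Prop := ∀ (A : Type u) [CommRing A] (r : ℕ), 2 ≤ r → ∀ (c c' : Fin r → A),
  (∀ j, c' j - c j ∈ (idl c) ^ 2) →
  ∃ f : A, f - 1 ∈ idl c ∧ ∃ e ∈ Elem (Fin r) (Localization.Away f),
    Matrix.vecMul (mp (algebraMap A (Localization.Away f)) c) e =
      mp (algebraMap A (Localization.Away f)) c'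

/-- B3. Facts about `θ`.  `c·t = u - 1`, `u` a unit.  (a) `det θ(c;t) = u`.  (b) `c·t' = u - 1` implies
`θ(c;t') = k θ(c;t)` with `k` homotopic to `1`.  (c) `θ(cg; g⁻¹t) = g⁻¹ θ(c;t) g`.
Proof. (a) `Matrix.det_one_add_mul_comm`-type lemma.  (b) `θ⁻¹ = 1 - tᵀc/u`, `θ' θ⁻¹ = 1 + (t'-t)ᵀ c / u`, path
`1 + X (t'-t)ᵀ c/u`, inverse `1 - X(t'-t)ᵀ c/u` since `c·(t'-t) = 0`.  (c) direct.
Hypotheses: none. -/
def StB3 : Prop := ∀ (A : Type u) [CommRing A] (r : ℕ) (c t t' : Fin r → A) (u : A), IsUnit u →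
  c ⬝ᵥ t = u - 1 →
  (theta c t).det = u ∧
  (c ⬝ᵥ t' = u - 1 → ∃ k : Matrix (Fin r) (Fin r) A, HId k ∧ theta c t' = k * theta c t) ∧
  (∀ g : Matrix (Fin r) (Fin r) A, IsUnit g.det →
    theta (Matrix.vecMul c g) (Matrix.mulVec g⁻¹ t) = g⁻¹ * theta c t * g)

/-- B4. LEMMA T.  Over `A_f`: `a - 1 ∈ (c)`, `ω` a unit; over `A_i`: `ω - 1 ∈ (c)`; for every `t` over `A_{fi}` with
`c·t = ω - 1` the matrix `θ(c;t)` is `δ k`, `δ ∈ GL_r(A_f)`, `k` homotopic to `1`.  Then `(a;c) ~ (aω;c)`.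
Proof. Over `A_i`: `ω - 1 = c·z`, `g_i = U(-a z)`.  Over `A_f`: `a - 1 = c·y`, `y'' = ω y`, `τ = U(y)V(c)`.  Over
`A_{fi}` let `t = a z + y - ω y`; `c·t = a(ω-1) + (1-ω)(a-1) = ω - 1`; `θ(c;t) = δ k`.
`g_f = τ diag(ω, δ⁻¹) V(-c/ω) U(-y'')` maps `(a;c) → (1;0) → (ω;0) → (ω;c) → (ω + ω c·y; c) = (aω;c)`.
`τ⁻¹ g_f g_i⁻¹ τ = diag(ω,δ⁻¹) V(-c/ω) U(-ω y + a z + y) V(c) = diag(ω,δ⁻¹) [[1/ω, 0],[-tᵀ, 1 + tᵀc]]
= [[1,0],[-δ⁻¹tᵀ, δ⁻¹θ(c;t)]] = [[1,0],[x, k]]`.  Path `τ [[1,0],[Xx, k(X)]] τ⁻¹`, A4.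
Hypotheses: hA4 hB0. -/
def StB4 : Prop := ∀ (A Af Ai Afi : Type u) [CommRing A] [CommRing Af] [CommRing Ai] [CommRing Afi]
  [Algebra A Af] [Algebra A Ai] [Algebra A Afi] [Algebra Af Afi] [Algebra Ai Afi] (f i : A),
  IsSq A Af Ai Afi f i → ∀ (r : ℕ) (a ω : A) (c : Fin r → A),
  algebraMap A Af a - 1 ∈ idl (mp (algebraMap A Af) c) → IsUnit (algebraMap A Af ω) →
  algebraMap A Ai ω - 1 ∈ idl (mp (algebraMap A Ai) c) →
  (∀ t : Fin r → Afi, mp (algebraMap A Afi) c ⬝ᵥ t = algebraMap A Afi ω - 1 →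
    ∃ (δ : Matrix (Fin r) (Fin r) Af) (k : Matrix (Fin r) (Fin r) Afi), IsUnit δ.det ∧ HId k ∧
      theta (mp (algebraMap A Afi) c) t = δ.map (algebraMap Af Afi) * k) →
  REq (row a c) (row (a * ω) c)

/-- C5. SUSLIN'S THEOREM, natural form.  For every `s` there is a natural family `σ(w,b,h,a',z)` of matrices of
determinant `1` with first row `(w; b^{(s+1)!}, h)` for all `(w,b,h,a',z)` with `w a' + (b,h)·z = 1`.
Proof. Block C (helper78): apply the theorem (for one ring) to the universal ring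
`ℤ[w,b,h,a',z]/(w a' + (b,h)·z - 1)`, lift the entries to polynomials and evaluate.
Hypotheses: see block C. -/
def StC5 : Prop := ∀ s : ℕ, ∃ σ : ∀ (D : Type u) [CommRing D], D → D → (Fin s → D) → D →
    (Fin (s + 1) → D) → Matrix (Unit ⊕ Fin (s + 1)) (Unit ⊕ Fin (s + 1)) D,
  (∀ (D : Type u) [CommRing D] (w b : D) (h : Fin s → D) (a' : D) (z : Fin (s + 1) → D),
    w * a' + (Fin.cons b h : Fin (s + 1) → D) ⬝ᵥ z = 1 →
    (σ D w b h a' z).det = 1 ∧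
    (σ D w b h a' z) (Sum.inl ()) = row w (Fin.cons (b ^ (s + 1).factorial) h)) ∧
  (∀ (D D' : Type u) [CommRing D] [CommRing D'] (ψ : D →+* D') (w b : D) (h : Fin s → D) (a' : D)
    (z : Fin (s + 1) → D),
    (σ D w b h a' z).map ψ = σ D' (ψ w) (ψ b) (mp ψ h) (ψ a') (mp ψ z))

/-- B5. LEMMA U.  `φ : C → C'`, `ω ∈ C` a unit, `(b,h)` unimodular over `C'`, `m = (s+1)!`, `c = (b^m, h) g` with
`g ∈ GL(C)`.  If `c·t = ω - 1` over `C'` then `θ(c;t) = δ k`, `δ ∈ GL(C)`, `k` homotopic to `1` over `C'`.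
Proof. By B3(c), and because `δ k` conjugated by `g` is `(g⁻¹δg)(g⁻¹kg)`, we may take `g = 1`.  Write `(b,h)·z = 1` over
`C'` and `σ(w;a',z)` for the matrix of C5 with `b, h` fixed.  `σ_Y = σ(ω; Y ω⁻¹, (1-Y) z)` over `C'[Y]`: value at
`Y = 1` is the image of `s_f = σ(ω; ω⁻¹, 0)` over `C`, at `Y = 0` it is `s_i = σ(ω;0,z)`; all have first row `(ω;c)`.
`V_f = diag(ω,1)V(-c/ω)` over `C` and `V_i(X) = V(-c)U(-Xt)` over `C'[X]` have first rows `(ω;c)`,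
`(1 + X(ω-1); c)`.  For a matrix `[[1,0],[x,k]]` let `ρ = k` (multiplicative).  `V_f V_i(1)⁻¹ = [[1,0],[-tᵀ,θ(c;t)]]`, so
`θ = ρ(V_f s_f⁻¹) ρ(s_f s_i⁻¹) ρ(s_i V_i(1)⁻¹)`.  The first factor comes from `GL(C)`.  The second is homotopic to `1` by
the path `σ_Y s_i⁻¹`.  Let `k_X = σ(1 + X(ω-1); 0, z) V_i(X)⁻¹`: the third factor is `k_1 = (k_1 k_0⁻¹) k_0` with path
`k_X k_0⁻¹`; `k_0 = σ(1;0,z)V(c)`, `k_0' = σ(1;1,0)V(c)` comes from `C`, and `k_0 k_0'⁻¹` is homotopic to `1` by the path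
`σ(1; 1-Y, Y z) σ(1;1,0)⁻¹`.  So `θ = δ₁ k₁ k₂ k₃ δ₂`; move `δ₂` to the left.
Hypotheses: hB0 hB3 hC5. -/
def StB5 : Prop := ∀ (C C' : Type u) [CommRing C] [CommRing C'] (φ : C →+* C') (s : ℕ) (ω b : C)
  (h : Fin s → C) (g : Matrix (Fin (s + 1)) (Fin (s + 1)) C) (c : Fin (s + 1) → C),
  IsUnit ω → IsUnit g.det → Um (Fin.cons (φ b) (mp φ h) : Fin (s + 1) → C') →
  c = Matrix.vecMul (Fin.cons (b ^ (s + 1).factorial) h : Fin (s + 1) → C) g →
  ∀ t : Fin (s + 1) → C', mp φ c ⬝ᵥ t = φ ω - 1 →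
  ∃ (δ : Matrix (Fin (s + 1)) (Fin (s + 1)) C) (k : Matrix (Fin (s + 1)) (Fin (s + 1)) C'),
    IsUnit δ.det ∧ HId k ∧ theta (mp φ c) t = δ.map φ * k

/-- B45. Harmless supports.  `f, i` coprime; over `A_f`: `a - 1 ∈ (c)`, `ω` a unit, `i ∈ (c)`, and `c = (b^m, h) g` with
`m = (s+1)!`, `g` invertible; over `A_i`: `ω - 1 ∈ (c)`.  Then `(a;c) ~ (aω;c)`.
Proof. A0, B4, B5 with `C = A_f`, `C' = A_{fi}`: `i ∈ (c) ⊂ (b,h)` and `i` is a unit of `A_{fi}`.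
Hypotheses: hA0 hB4 hB5. -/
def StB45 : Prop := ∀ (A : Type u) [CommRing A] (f i : A), IsCoprime f i → ∀ (s : ℕ) (a ω : A)
  (c : Fin (s + 1) → A),
  algebraMap A (Localization.Away f) a - 1 ∈ idl (mp (algebraMap A (Localization.Away f)) c) →
  IsUnit (algebraMap A (Localization.Away f) ω) →
  algebraMap A (Localization.Away f) i ∈ idl (mp (algebraMap A (Localization.Away f)) c) →
  algebraMap A (Localization.Away i) ω - 1 ∈ idl (mp (algebraMap A (Localization.Away i)) c) →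
  (∃ (b : Localization.Away f) (h : Fin s → Localization.Away f)
    (g : Matrix (Fin (s + 1)) (Fin (s + 1)) (Localization.Away f)), IsUnit g.det ∧
    mp (algebraMap A (Localization.Away f)) c =
      Matrix.vecMul (Fin.cons (b ^ (s + 1).factorial) h : Fin (s + 1) → Localization.Away f) g) →
  REq (row a c) (row (a * ω) c)

/-- B6. LEMMA W.  `(w, c₁) = A` implies `(a w^{s+1}; c₁, c) ~ (a; c₁, c)`, `c` of length `s`.
Proof. Put `D = A/c₁`, `w` is a unit of `D`.  `e = diag(w^s, w⁻¹, .., w⁻¹)` (size `s+1`) is in `Elem (Fin (s+1)) D`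
(product of Whitehead matrices `diag(w, w⁻¹)` in positions `(0,j)`), and `(a w^{s+1}; c) = w (a;c) e`.  Lift `e` to
`Elem` over `A`: `(a w^{s+1}; c) = w (a;c) ẽ + c₁ (..)`, so `(a w^{s+1}; c₁, c) ~ (w a; c₁, w c)`.
Second step: `(η₁.., c₁)` with `w p + c₁ q = 1`, `η = (a;c)` of length `s+1`: `(c₁, wη) ~ (c₁, η)`.  Explicitly:
`(c₁, η)·[[w, -..]]`: the maps `(x₀,x) ↦ (w x₀, x)`, `(x₀,x) ↦ (p x₀ - q η·x, x)` are inverse isomorphisms of the
kernels of `(c₁,η)` and `(c₁,wη)`; if `(c₁,η)·y = 1`, `(c₁,wη)·y' = 1` (`y, y'` columns) the matrix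
`g = y' ⊗ (c₁,η) + φ (1 - y ⊗ (c₁,η))` (columns; `φ = diag(w,1,..,1)`) satisfies `(c₁,wη) g = (c₁,η)` and has the
inverse `y ⊗ (c₁,wη) + ψ (1 - y' ⊗ (c₁,wη))`, `ψ (x₀,x) = (p x₀ - qη·x, x)`.  If `(a;c₁,c)` is not unimodular the
statement is still true but not needed: ASSUME unimodularity.
Hypotheses: hB0. -/
def StB6 : Prop := ∀ (A : Type u) [CommRing A] (s : ℕ) (a w c₁ : A) (c : Fin s → A),
  IsCoprime w c₁ → Um (row a (Fin.cons c₁ c : Fin (s + 1) → A)) →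
  REq (row (a * w ^ (s + 1)) (Fin.cons c₁ c : Fin (s + 1) → A))
    (row a (Fin.cons c₁ c : Fin (s + 1) → A))

/-- B7. Formal properties of `REq`, `Um`, `row`.
Proof. `REq` is an equivalence relation (inverse matrix), `EEq v w → REq v w`, `REq` preserves `Um`; if
`a' - a ∈ (c)` then `(a;c) ~ (a';c)`; if `c'` and `c` have `c'_j - c_j ∈ (a)` for all `j` then `(a;c) ~ (a;c')`; if
`c' = c e`, `e` invertible, then `(a;c) ~ (a;c')`; if `(c) = A` then `(a;c) ~ (1;0)`; if `a` is a unit then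
`(a;c) ~ (1;0)`; ring maps preserve `REq` and `Um`.
Hypotheses: none. -/
def StB7 : Prop := ∀ (A B : Type u) [CommRing A] [CommRing B] (φ : A →+* B),
  (∀ (n : Type) [Fintype n] [DecidableEq n],
    (∀ v : n → A, REq v v) ∧ (∀ v w : n → A, REq v w → REq w v) ∧
    (∀ v w x : n → A, REq v w → REq w x → REq v x) ∧
    (∀ v w : n → A, EEq v w → REq v w) ∧
    (∀ v w : n → A, REq v w → Um v → Um w) ∧
    (∀ v w : n → A, REq v w → REq (mp φ v) (mp φ w)) ∧ (∀ v : n → A, Um v → Um (mp φ v))) ∧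
  (∀ (r : ℕ) (a a' : A) (c c' : Fin r → A),
    (a' - a ∈ idl c → REq (row a c) (row a' c)) ∧
    ((∀ j, c' j - c j ∈ Ideal.span {a}) → REq (row a c) (row a c')) ∧
    (∀ e : Matrix (Fin r) (Fin r) A, IsUnit e.det → Matrix.vecMul c e = c' →
      REq (row a c) (row a c')) ∧
    (1 ∈ idl c → REq (row a c) (row 1 0)) ∧
    (IsUnit a → REq (row a c) (row 1 0)))

end Pool.Agent.Helper91.GU
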