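import Pool.Agent.Helper91.GU.Defs
import Pool.Agent.Helper91.GU.StB

/-!
# Project GU: block E (the ideal `I`)

`I` an ideal of `A = L[X]`, `B = A/I`, `x` = class of `X`.  `YK I k₀ a` says `a_k x^k = 1` for `k ≥ k₀`; then `x` is a
unit, `y = x⁻¹`, `a_k = y^k`.  `J = I ∩ L`.  `Φ : A → B[Z]`, `X ↦ x Z`, `L → B`; `Φ(f) = ∑ f_l x^l Z^l`.
-/

set_option autoImplicit false

namespace Pool.Agent.Helper91.GU

open Polynomial

universe u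

/-- `1 - a_k X^k ∈ I` for all `k ≥ k₀` -/
def YK {L : Type u} [CommRing L] (I : Ideal L[X]) (k₀ : ℕ) (a : ℕ → L) : Prop :=
  ∀ k, k₀ ≤ k → 1 - C (a k) * X ^ k ∈ I

/-- `Φ : L[X] → (L[X]/I)[Z]`, `X ↦ x Z` -/
noncomputable def Phi {L : Type u} [CommRing L] (I : Ideal L[X]) : L[X] →+* (L[X] ⧸ I)[X] :=
  eval₂RingHom ((C : (L[X] ⧸ I) →+* (L[X] ⧸ I)[X]).comp
    ((Ideal.Quotient.mk I).comp (C : L →+* L[X]))) (C (Ideal.Quotient.mk I X) * X)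

/-- E0. Properties of `Φ`.  (a) `(Φ f)_l = [f_l X^l]`; (b) `(Φ f)(1) = [f]`; (c) `x` is a unit; (d) `Φ f = 0` iff all
coefficients of `f` lie in `J`, (e) iff `f ∈ J·L[X]`; (f) for every `β ∈ B` there is `M₀` such that for all `M ≥ M₀` and all
`q ∈ L[X]` there is `f` with `Φ(X^M f) = Z^M β q̄` (`q̄` = image of `q` in `B[Z]`); (g) the same for every `P ∈ B[Z]`
(then `M₀` depends on `P`).
Proof. (a), (b) by definition.  (c) `a_{k₀+1} x^{k₀+1} = 1`.  (d) `f_l x^l = 0` in `B` iff `f_l ∈ J`.  (f) `β = [p]`,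
`p = ∑_{i≤n} p_i X^i`, `M₀ = k₀ + n`: `β q_l y^{M+l} = ∑ p_i q_l y^{M+l-i} = [∑_i p_i q_l a_{M+l-i}]`, take
`f = ∑_l (∑_i p_i q_l a_{M+l-i}) X^l`.  (g) sum over the coefficients of `P` (use (f) with `q = X^l`).
Hypotheses: none. -/
def StE0 : Prop := ∀ (L : Type u) [CommRing L] (I : Ideal L[X]) (k₀ : ℕ) (a : ℕ → L), YK I k₀ a →
  (∀ (f : L[X]) (l : ℕ), (Phi I f).coeff l = Ideal.Quotient.mk I (C (f.coeff l) * X ^ l)) ∧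
  (∀ f : L[X], (Phi I f).eval 1 = Ideal.Quotient.mk I f) ∧
  IsUnit (Ideal.Quotient.mk I X) ∧
  (∀ f : L[X], Phi I f = 0 ↔ ∀ l, C (f.coeff l) ∈ I) ∧
  (∀ f : L[X], Phi I f = 0 ↔ f ∈ (I.comap C).map C) ∧
  (∀ β : L[X] ⧸ I, ∃ M₀ : ℕ, ∀ M, M₀ ≤ M → ∀ q : L[X], ∃ f : L[X],
    Phi I (X ^ M * f) = X ^ M * C β * q.map (algebraMap L (L[X] ⧸ I))) ∧
  (∀ P : (L[X] ⧸ I)[X], ∃ M₀ : ℕ, ∀ M, M₀ ≤ M → ∃ f : L[X], Phi I (X ^ M * f) = X ^ M * P)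

/-- EB. BASS.  `B` Noetherian, `dim B + 2 ≤ n + 1`: the elementary group acts transitively on unimodular rows of length
`n + 1`.
Proof. (If `B = 0` trivial; otherwise `dim B = d ≥ 0`, `n ≥ d+1 ≥ 1`.)  Let `v` have entries `v_0..v_n`.  Claim: there are
`h_j` such that with `v'_j = v_j + h_j v_n` (`j < n`) every prime containing `v'_0..v'_{i-1}` but not `v_n` has height
`≥ i`.  Choose `h_i` successively: the minimal primes `P` of `(v'_0..v'_{i-1})` with `v_n ∉ P` are finitely many; we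
need `v_i + h_i v_n ∉ P` for all of them.  Prime avoidance for a coset: order them so that no later one is contained
in an earlier one..; simplest: let `S` = these primes which contain `v_i`, `T` = those which do not; choose
`h ∈ ∏_{P∈T} P`-elements outside all `P ∈ S` (minimal primes are pairwise incomparable, so `⋂_{T} P ⊄ P'` for
`P' ∈ S`: prime avoidance): then `v_i + h v_n ∉ P` for `P ∈ S` (as `h, v_n ∉ P`) and for `P ∈ T` (as `h ∈ P`,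
`v_i ∉ P`).  For `i = n ≥ d+1`: a prime containing all `v'_j`, `j < n`, contains `v_n` (height `≤ d < n`), hence all
of `v`: impossible.  So `(v'_0..v'_{n-1})` is unimodular; add a combination of them to `v_n` to make it `1`, clear
the others, and move `1` to position `0`.
Hypotheses: hD2 (heights). -/
def StEB : Prop := ∀ (B : Type u) [CommRing B] [IsNoetherianRing B] (n : ℕ),
  ringKrullDim B + 2 ≤ (n + 1 : ℕ) → ∀ v : Fin (n + 1) → B, Um v → EEq v (Pi.single 0 1)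

/-- E1. The first entry.  `c` of length `s+1` over `L[X]`, `I = (c)`, `dim L[X]/I + 2 ≤ s+1`, `γ = 1 - g X^k ∈ I`, `k` a
unit of `L`.  There is an elementary `e` with `(c e)_0 ≡ γ` modulo `I²`.
Proof. `γ = ∑ λ_j c_j`.  Apply `X d/dX`: `-k g X^k = ∑ λ_j X c_j' + ∑ X λ_j' c_j`; modulo `I`: `g X^k ≡ 1`, so
`-k ≡ ∑ λ_j (X c_j')`: the class of `λ` in `B^{s+1}` is unimodular.  By EB (transposed: the transpose of a
product of transvections is one) `λᵀ ≡ ε e_0ᵀ` modulo `I` with `ε` elementary over `B`; lift to `e ∈ Elem` over `L[X]`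
(B0).  `(c e)_0 = c·(e e_0ᵀ) ≡ c·λᵀ = γ` modulo `I²` because `e e_0ᵀ - λᵀ` has entries in `I` and `c` too.
Hypotheses: hB0 hEB. -/
def StE1 : Prop := ∀ (L : Type u) [CommRing L] [IsNoetherianRing L] (s : ℕ)
  (c : Fin (s + 1) → L[X]), ringKrullDim (L[X] ⧸ idl c) + 2 ≤ (s + 1 : ℕ) →
  ∀ (k : ℕ) (g : L), IsUnit (k : L) → 1 - C g * X ^ k ∈ idl c →
  ∃ e ∈ Elem (Fin (s + 1)) L[X], Matrix.vecMul c e 0 - (1 - C g * X ^ k) ∈ idl c ^ 2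

/-- E2a. Divisibility by `γ = 1 - a_k X^k`, `k ≥ k₀`, `k ≥ 1`: if `Φγ ∣ Φf` then `f ∈ γ L[X] + J L[X]`.
Proof. `Φγ = 1 - Z^k` (`a_k x^k = 1`).  `Φf = Φγ·P`.  For `M = kp` large E0(g) gives `f'` with
`Φ(X^M f') = Z^M P`.  `(a_k X^k)^p f - γ X^M f'` has image `Z^{kp} Φf - Φγ Z^M P = 0` under `Φ`
(`Φ(a_k X^k) = Z^k`), so it lies in `J L[X]` (E0(e)); and `f - (a_k X^k)^p f ∈ γ L[X]`.
Hypotheses: hE0. -/
def StE2a : Prop := ∀ (L : Type u) [CommRing L] (I : Ideal L[X]) (k₀ : ℕ) (a : ℕ → L), YK I k₀ a →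
  ∀ k, k₀ ≤ k → 1 ≤ k → ∀ f : L[X], Phi I (1 - C (a k) * X ^ k) ∣ Phi I f →
  ∃ l : L[X], f - l * (1 - C (a k) * X ^ k) ∈ (I.comap C).map C

/-- E2b. The element `ε = k⁻¹ ∑_{i<k} a_{k+i} X^{k+i}`.  `1 - ε ∈ I` and `ε I ⊂ γ L[X] + J L[X]`.
Proof. Modulo `I` each `a_{k+i} X^{k+i}` is `1`.  For `w ∈ I`: `(Φw)(1) = 0`, so `Φw = (1 - Z) w'`;
`Φ(ε) = k⁻¹ Z^k (1 + Z + .. + Z^{k-1})`, so `Φ(ε w) = k⁻¹ Z^k (1 - Z^k) w'` is divisible by `Φγ`; E2a.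
Hypotheses: hE0 hE2a. -/
def StE2b : Prop := ∀ (L : Type u) [CommRing L] (I : Ideal L[X]) (k₀ : ℕ) (a : ℕ → L), YK I k₀ a →
  ∀ k, k₀ ≤ k → 1 ≤ k → ∀ κ : L, κ * k = 1 →
  let ε : L[X] := C κ * ∑ i ∈ Finset.range k, C (a (k + i)) * X ^ (k + i)
  1 - ε ∈ I ∧ ∀ w ∈ I, ∃ l : L[X], ε * w - l * (1 - C (a k) * X ^ k) ∈ (I.comap C).map C

/-- E2. Every `w ∈ I` is `l γ + b X^N` modulo `I²` with `b ∈ J`, for all large `N`.
Proof. `w = (1-ε) w + ε w`, `(1-ε) w ∈ I²`, `ε w = l γ + j`, `j = ∑ j_i X^i`, `j_i ∈ J` (E2b).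
`j_i X^i - j_i a_{N-i} X^N = j_i X^i (1 - a_{N-i} X^{N-i}) ∈ I²` when `N - i ≥ k₀`; `b = ∑ j_i a_{N-i}`.
Hypotheses: hE2b. -/
def StE2 : Prop := ∀ (L : Type u) [CommRing L] (I : Ideal L[X]) (k₀ : ℕ) (a : ℕ → L), YK I k₀ a →
  ∀ k, k₀ ≤ k → 1 ≤ k → IsUnit (k : L) → ∀ w ∈ I, ∃ N₀ : ℕ, ∀ N, N₀ ≤ N →
  ∃ (l : L[X]) (b : L), C b ∈ I ∧ w - l * (1 - C (a k) * X ^ k) - C b * X ^ N ∈ I ^ 2

/-- E12. The framing.  `I = (c)`, `YK`, dimension condition.  For all large `N` there are an elementary `e` and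
`b_j ∈ J` with `c e ≡ (γ, b_1 X^N, .., b_s X^N)` modulo `I²`.
Proof. E1: `e₁`.  E2 for the entries `(c e₁)_j ∈ I`, `j ≥ 1`: `(c e₁)_j ≡ l_j γ + b_j X^N`; subtract `l_j` times the
`0`-th entry from the `j`-th (elementary).
Hypotheses: hE1 hE2. -/
def StE12 : Prop := ∀ (L : Type u) [CommRing L] [IsNoetherianRing L] (s : ℕ)
  (c : Fin (s + 1) → L[X]), ringKrullDim (L[X] ⧸ idl c) + 2 ≤ (s + 1 : ℕ) →
  ∀ (k₀ : ℕ) (a : ℕ → L), YK (idl c) k₀ a → ∀ k, k₀ ≤ k → 1 ≤ k → IsUnit (k : L) →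
  ∃ N₀ : ℕ, ∀ N, N₀ ≤ N → ∃ e ∈ Elem (Fin (s + 1)) L[X], ∃ b : Fin s → L, (∀ j, C (b j) ∈ idl c) ∧
    ∀ j, Matrix.vecMul c e j -
      (Fin.cons (1 - C (a k) * X ^ k) (fun j => C (b j) * X ^ N) : Fin (s + 1) → L[X]) j ∈
        idl c ^ 2

/-- E3. The element `g`.  `I ⊂ (γ, b_j X^N) + I²`, `b_j ∈ J`.  There are `κ ≥ 1` and `g ∈ L` with `1 - g X^κ ∈ I` and
`g J ⊂ (b)`.
Proof. `I` is finitely generated: there is `t ∈ I` with `(1-t) I ⊂ (γ, b_j X^N)`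
(`Submodule.exists_sub_one_mem_and_smul_eq_zero_of_fg_of_le_smul` for `I/(γ, b X^N)`).  Let `j ∈ J`.  E2b:
`ε t = l γ + j'`, `j' ∈ J L[X]`.  Multiply `(1-t) j ∈ (γ, b X^N)` by `ε`: `ε j ∈ γ L[X] + J² L[X] + (b) L[X]`.  Let
`Λ = L/(J² + (b))` and `Λ' = Λ[1/a_k]`; in `Λ'[X]`: `ε j ∈ γ Λ'[X]` with `γ = 1 - a_k X^k = -a_k (X^k - a_k⁻¹)`, and modulo
`γ` `ε = k⁻¹ ∑_{i<k} a_{k+i} a_k⁻¹ X^i`, a polynomial of degree `< k`; a multiple of the monic polynomial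
`X^k - a_k⁻¹` of degree `< k` is `0`, so `k⁻¹ a_k a_k⁻¹ j = 0` in `Λ'` (constant coefficient): `a_k^p j ∈ J² + (b)` for
some `p`, common for finitely many generators `j_i` of `J`.  So `a_k^p j_i = ∑ ν_{il} j_l + (b)`, `ν_{il} ∈ J`:
`g₀ = det(a_k^p - ν)` satisfies `g₀ J ⊂ (b)` (adjugate) and `g₀ ≡ a_k^{pn}` modulo `J`.  `g = g₀ a_k`, `κ = k p n + k`:
`1 - a_k^{pn+1} X^κ ∈ I`.
Hypotheses: hE2b. -/
def StE3 : Prop := ∀ (L : Type u) [CommRing L] [IsNoetherianRing L] (I : Ideal L[X]) (k₀ : ℕ)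
  (a : ℕ → L), YK I k₀ a → ∀ k, k₀ ≤ k → 1 ≤ k → IsUnit (k : L) → ∀ (s : ℕ) (b : Fin s → L) (N : ℕ),
  (∀ j, C (b j) ∈ I) →
  I ≤ Ideal.span (insert (1 - C (a k) * X ^ k) (Set.range fun j => C (b j) * X ^ N)) ⊔ I ^ 2 →
  ∃ (κ : ℕ) (g : L), 1 ≤ κ ∧ 1 - C g * X ^ κ ∈ I ∧
    ∀ j : L, C j ∈ I → g * j ∈ Ideal.span (Set.range b)

end Pool.Agent.Helper91.GU
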