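import Pool.Agent.Helper91.GU.Defs
import Pool.Agent.Helper91.GU.StB
import Pool.Agent.Helper91.GU.StE

/-!
# Project GU: block F (the final rows)

Notation: `A = L[X]`, `I`, `B = A/I`, `x`, `y = x⁻¹`, `Φ : A → B[Z]` as in StE; `q̄` = image in `B[Z]` of `q ∈ L[X]`
(`q.map (algebraMap L (L[X] ⧸ I))`, variable `Z`).  `m = (s+1)!`.

The data of this block are collected in `Dat`: `u = [v₀]` is a unit of `B`; `b_j ∈ J`; `1 - g X^κ ∈ I`, `κ ≥ 1`,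
`g J ⊂ (b)`; `h_j = b_j X^N`; a polynomial `p ∈ L[X]` with `p(1) = 1`; `G ∈ A` with `Φ G = (1-Z) p̄^m` and
`G = 1 - g X q'`.
-/

set_option autoImplicit false

namespace Pool.Agent.Helper91.GU

open Polynomial

universe u

/-- the row `(G, b_1 X^N, .., b_s X^N)` -/
noncomputable def crow {L : Type u} [CommRing L] {s : ℕ} (G : L[X]) (b : Fin s → L) (N : ℕ) :
    Fin (s + 1) → L[X] := Fin.cons G (fun j => C (b j) * X ^ N)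

/-- the basic data: `YK`, `b_j ∈ J`, `1 - g X^κ ∈ I`, `κ ≥ 1`, `g J ⊂ (b)` -/
def Dat {L : Type u} [CommRing L] (I : Ideal L[X]) (k₀ : ℕ) (a : ℕ → L) {s : ℕ} (b : Fin s → L)
    (κ : ℕ) (g : L) : Prop :=
  YK I k₀ a ∧ (∀ j, C (b j) ∈ I) ∧ 1 ≤ κ ∧ 1 - C g * X ^ κ ∈ I ∧
    ∀ j : L, C j ∈ I → g * j ∈ Ideal.span (Set.range b)

/-- the data of `G`: `p(1) = 1`, `Φ G = (1-Z) p̄^m`, `G = 1 - g X q'` -/
def DatG {L : Type u} [CommRing L] (I : Ideal L[X]) (s : ℕ) (g : L) (p G q' : L[X]) : Prop :=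
  p.eval 1 = 1 ∧
  Phi I G = (1 - X) * (p.map (algebraMap L (L[X] ⧸ I))) ^ (s + 1).factorial ∧
  G = 1 - C g * X * q'

/-- F1. For `m` a unit and every `N` there are `p, q` with `(1-X) p^m = 1 - X^N q`, `p(1) = 1`.
Proof. `N = 0` trivial.  Induction: `p_1 = 1`, `q = 1`.  If `(1-X) p^m = 1 - X^N q`, `N ≥ 1`, `p(0) = 1`, put
`p' = p + (q(0)/m) X^N`: `p'^m = p^m + q(0) X^N p^{m-1} + X^{2N}(..)`, `p^{m-1}(1-X) ≡ 1` modulo `X`, so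
`(1-X) p'^m ≡ 1` modulo `X^{N+1}`.  At the end `p'' = p + (1 - p(1)) X^N`: `(1-X) p''^m ≡ (1-X)p^m ≡ 1` modulo `X^N`.
Hypotheses: none. -/
def StF1 : Prop := ∀ (L : Type u) [CommRing L] (m : ℕ), IsUnit (m : L) → ∀ N : ℕ,
  ∃ p q : L[X], (1 - X) * p ^ m = 1 - X ^ N * q ∧ p.eval 1 = 1

/-- F2. The trivial row.  There are `p, G, q'` as in `DatG` and `û ∈ A` with `Φ û = u (1 - Φ G)` and
`(û; G, b_j X^N) ~ (1; 0)`.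
Proof. `u' = u⁻¹ ∈ B`.  E0(f) for `β = u x^κ` and `β = u'`: common bound `M₀ ≥ k₀, N, 1`.  Let `M' = M₀ + N + k₀ + 1`,
`w = a_{M'} X^{M'}`, `Φ w = Z^{M'}`.  `o = g X^{(s+1)M'} f₁` with `Φ(X^{(s+1)M'} f₁) = Z^{(s+1)M'} u x^κ`; since
`g x^κ = 1` in `B`, `Φ o = Z^{(s+1)M'} u`.  `N₁ = (s+2)M' + M'`; F1 with `N₁` and `m = (s+1)!`: `p, q`.
`X^{M'} f₃` with image `Z^{M'} u' q̄`; `G = 1 - w o X^{M'} f₃`, `Φ G = 1 - Z^{N₁} q̄ = (1-Z) p̄^m`; `o` has the factor `g X`,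
so `G = 1 - g X q'`.  `û = g X^{N₁} f₄` with `Φ(X^{N₁} f₄) = Z^{N₁} u x^κ q̄`: `Φ û = u Z^{N₁} q̄ = u(1 - Φ G)`.
(1) `(o; G, h) ~ (o; 1, h) ~ (1;0)` (`G ≡ 1` modulo `o`; B7).
(2) `û w^{s+1} - o (1 - G) = g X^N κ'` and its image under `Φ` is `0`: `(Φ(g X^N))` is a nonzerodivisor (`g` is a unit
of `B`), so `Φ κ' = 0`, `κ' ∈ J A` (E0(e)), `g κ' ∈ (b) A`, so the difference lies in `(h)`: `û w^{s+1} - o ∈ (G, h)`, hence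
`(û w^{s+1}; G, h) ~ (o; G, h)` (B7).
(3) `w` and `G` are coprime: B6 gives `(û w^{s+1}; G, h) ~ (û; G, h)`; B6 asks for unimodularity of `(û; G, h)`:
`(û w^{s+1}; G,h)` is unimodular by (1), (2), hence so is `(û;G,h)`.
Hypotheses: hB6 hB7 hE0 hF1. -/
def StF2 : Prop := ∀ (L : Type u) [CommRing L] (I : Ideal L[X]) (k₀ : ℕ) (a : ℕ → L) (s : ℕ)
  (b : Fin s → L) (κ : ℕ) (g : L), Dat I k₀ a b κ g → IsUnit ((s + 1).factorial : L) →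
  ∀ v₀ : L[X], IsUnit (Ideal.Quotient.mk I v₀) → ∀ N : ℕ,
  ∃ p G q' û : L[X], DatG I s g p G q' ∧
    Phi I û = C (Ideal.Quotient.mk I v₀) * (1 - Phi I G) ∧
    REq (row û (crow G b N)) (row 1 0)

/-- F3. The ideal `(G, h)`.  (a) `f ∈ (G, h)` iff `Φ G ∣ Φ f`; (b) for every `P ∈ B[Z]` there is `f ∈ A` with
`Φ G ∣ Φ f - P`.
Proof. Let `ρ = g X q' = 1 - G`.  Claim: for every `P ∈ B[Z]` and all large `n` there is `f''` with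
`Φ(ρ^n) P = Φ f''`.  Indeed `ρ^n = g^n X^n q'^n` and for each coefficient `P_l` of `P`:
`Φ(g^n X^n) P_l Z^l = g^n x^n P_l Z^{n+l} = Z^{n+l} (P_l y^{κn - n})`, which is `Φ(e X^{n+l})` with `e ∈ L`,
`e = P_l y^{κn - n} y^{n+l} = P_l y^{κ n + l}` in `B`, and such `e` exists for large `n` (`P_l = [r]`,
`r = ∑ r_i X^i`: `e = ∑ r_i a_{κn+l-i}`; `κ ≥ 1`).
(b): `Φ(ρ^n) - 1` is divisible by `Φ(ρ) - 1 = -Φ G`.
(a) `→`: `Φ(b_j X^N) = 0`.  `←`: `Φ f = Φ G·P`; `ρ^n f - G f''` has image `0`, so it lies in `J A`;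
`ρ^n (ρ^n f - G f'') ∈ g^n X^n J A ⊂ X^n (b) A ⊂ (h)` for `n ≥ N`, `n ≥ 1`; and `ρ ≡ 1` modulo `G`: `f ∈ (G, h)`.
Hypotheses: hE0. -/
def StF3 : Prop := ∀ (L : Type u) [CommRing L] (I : Ideal L[X]) (k₀ : ℕ) (a : ℕ → L) (s : ℕ)
  (b : Fin s → L) (κ : ℕ) (g : L), Dat I k₀ a b κ g → ∀ p G q' : L[X], DatG I s g p G q' → ∀ N : ℕ,
  (∀ f : L[X], f ∈ idl (crow G b N) ↔ Phi I G ∣ Phi I f) ∧
  (∀ P : (L[X] ⧸ I)[X], ∃ f : L[X], Phi I G ∣ Phi I f - P)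

/-- F3c. Chinese remainders.  For `P₁, P₂ ∈ B[Z]` there is `f ∈ A` with `1 - Z ∣ Φ f - P₁` and `p̄^m ∣ Φ f - P₂`; and
`f ∈ (G,h)` iff `1 - Z ∣ Φ f` and `p̄^m ∣ Φ f`.
Proof. `1 - p̄^m` vanishes at `Z = 1`, so it is divisible by `1 - Z`: the two polynomials are coprime; their product is
`Φ G` (`IsCoprime.mul_dvd`).  F3.
Hypotheses: hF3. -/
def StF3c : Prop := ∀ (L : Type u) [CommRing L] (I : Ideal L[X]) (k₀ : ℕ) (a : ℕ → L) (s : ℕ)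
  (b : Fin s → L) (κ : ℕ) (g : L), Dat I k₀ a b κ g → ∀ p G q' : L[X], DatG I s g p G q' → ∀ N : ℕ,
  (∀ P₁ P₂ : (L[X] ⧸ I)[X], ∃ f : L[X], (1 - X) ∣ Phi I f - P₁ ∧
    (p.map (algebraMap L (L[X] ⧸ I))) ^ (s + 1).factorial ∣ Phi I f - P₂) ∧
  (∀ f : L[X], f ∈ idl (crow G b N) ↔ ((1 - X) ∣ Phi I f ∧
    (p.map (algebraMap L (L[X] ⧸ I))) ^ (s + 1).factorial ∣ Phi I f))

/-- F4a. The shape of `(G,h)` near `K`.  Let `F` be an `A`-algebra (`A_f` later) in which `a_{k₀}`, `g`, `X` and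
`a_{k₀} - a_{k₀+1} X` are units.  Then over `F`: `(G, h) = (b^m, h') γ` with `γ` invertible.
Proof. `α = a_{k₀+1} a_{k₀}⁻¹ X ∈ F`, `e = 1 - α` is a unit, `β = p(α)` (`aeval`; `F` is an `L`-algebra via `A`).  Let
`P = (1-X) p^m = ∑_{l ≤ n} P_l X^l ∈ L[X]`; `a_{k₀}^n e β^m = a_{k₀}^n P(α)` is the image of
`R = ∑ P_l a_{k₀+1}^l a_{k₀}^{n-l} X^l ∈ A`, and `Φ R = ∑ P_l y^{(k₀+1)l} y^{k₀(n-l)} x^l Z^l = y^{k₀ n} P̄ = Φ(a_{k₀}^n G)`.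
So `a_{k₀}^n G - R ∈ J A` (E0).  `J F ⊂ (h) F`: `g j ∈ (b)`, `b_j = h_j X^{-N}`, `g`, `X` units.  Hence
`G = e β^m + ∑ μ_j h_j` over `F`; `γ` = identity except column `0`, which is `(e, μ_1, .., μ_s)ᵀ`, `det γ = e`.
Hypotheses: hE0. -/
def StF4a : Prop := ∀ (L : Type u) [CommRing L] (I : Ideal L[X]) (k₀ : ℕ) (a : ℕ → L) (s : ℕ)
  (b : Fin s → L) (κ : ℕ) (g : L), Dat I k₀ a b κ g → ∀ p G q' : L[X], DatG I s g p G q' → ∀ N : ℕ,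
  ∀ (F : Type u) [CommRing F] [Algebra L[X] F], IsUnit (algebraMap L[X] F (C (a k₀))) →
  IsUnit (algebraMap L[X] F (C g)) → IsUnit (algebraMap L[X] F X) →
  IsUnit (algebraMap L[X] F (C (a k₀) - C (a (k₀ + 1)) * X)) →
  ∃ (β : F) (h : Fin s → F) (γ : Matrix (Fin (s + 1)) (Fin (s + 1)) F), IsUnit γ.det ∧
    mp (algebraMap L[X] F) (crow G b N) =
      Matrix.vecMul (Fin.cons (β ^ (s + 1).factorial) h : Fin (s + 1) → F) γ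

/-- F4. The support at `K` is harmless.  `Φ û = u(1 - Φ G)`, `u` a unit; `û₁` with `1 - Z ∣ Φ û₁ - u`,
`p̄^m ∣ Φ û₁ - 1`.  Then `(û₁; G, h) ~ (û; G, h)`.
Proof. F3c: `ω` with `1 - Z ∣ Φ ω - 1`, `p̄^m ∣ Φ ω - u`.  `û - û₁ ω ∈ (G,h)` (modulo `1-Z`: `u - u·1`, modulo
`p̄^m`: `u - 1·u`, since `Φ û ≡ u` modulo `Φ G`), so `(û;G,h) ~ (û₁ω;G,h)` (B7).  It remains to apply B45 with `a = û₁`,
`ω`, `c = (G,h)`.  Choose `f₀` with `1 - Z ∣ Φ f₀`, `p̄^m ∣ Φ f₀ - 1` (F3c).  For each of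
`e = a_{k₀}, g, X, ω, a_{k₀} - a_{k₀+1}X` the image `Φ e` is a unit modulo `p̄^m`: `Φ a_{k₀} = y^{k₀}`, `Φ g = y^κ`,
`Φ(gXq') ≡ 1` modulo `Φ G`, `Φ ω ≡ u`, `Φ(a_{k₀} - a_{k₀+1}X) = y^{k₀}(1 - Z)` and `1 - Z`, `p̄^m` are coprime; so by F3c there
is `e'` with `p̄^m ∣ Φ(e e') - 1`.  `f = f₀ ∏ e e'`, `i = 1 - f`: `1 - Z ∣ Φ f`, `p̄^m ∣ Φ f - 1`, all `e` are units in
`A_f`, `f`, `i` coprime.  Conditions: `(û₁ - 1) f ∈ (G,h)`, `i f ∈ (G,h)` (F3c), so over `A_f` `û₁ - 1, i ∈ (G,h)`;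
`(ω - 1) i ∈ (G,h)`, so over `A_i` `ω - 1 ∈ (G,h)`; the shape of `(G,h)` over `A_f` is F4a.
Hypotheses: hB45 hB7 hE0 hF3c hF4a. -/
def StF4 : Prop := ∀ (L : Type u) [CommRing L] (I : Ideal L[X]) (k₀ : ℕ) (a : ℕ → L) (s : ℕ)
  (b : Fin s → L) (κ : ℕ) (g : L), Dat I k₀ a b κ g → ∀ p G q' : L[X], DatG I s g p G q' → ∀ N : ℕ,
  ∀ v₀ û û₁ : L[X], IsUnit (Ideal.Quotient.mk I v₀) →
  Phi I û = C (Ideal.Quotient.mk I v₀) * (1 - Phi I G) →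
  (1 - X) ∣ Phi I û₁ - C (Ideal.Quotient.mk I v₀) →
  (p.map (algebraMap L (L[X] ⧸ I))) ^ (s + 1).factorial ∣ Phi I û₁ - 1 →
  REq (row û₁ (crow G b N)) (row û (crow G b N))

/-- F5a. `γ - k G ∈ I² + (h)`, `γ = 1 - a_k X^k`.
Proof. `G ∈ I` (`(ΦG)(1) = 0`, E0(b)).  `f = γ - kG ∈ I`, `Φ f = 1 - Z^k - k(1-Z)p̄^m` is the image of
`P = 1 - X^k - k(1-X)p^m ∈ L[X]` with `P(1) = 0`, `P'(1) = -k + k p(1)^m = 0`, so `P = (1-X)² W`.  Let `M = k₀`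
(or any `M ≥ k₀`), `t = a_M X^M - a_{M+1} X^{M+1} ∈ I`, `Φ t = Z^M (1-Z)`, `w = ∑ W_l a_{M+l} X^{M+l}`, `Φ w = Z^M W̄`.
`Φ(t² w) = Z^{3M} Φ f = Φ(a_M³ X^{3M} f)` (`Φ(a_M X^M) = Z^M`), so `(a_M X^M)³ f - t² w ∈ J A`; and
`f - (a_M X^M)³ f ∈ I·I`.  So `f ∈ I² + J A`.  Let `C j ∈ I`, `n = N + 1`: `j - j (g X^κ)^n ∈ I·I` and
`j g^n X^{κ n} ∈ (b) X^{κn} A ⊂ (h)` (`g j ∈ (b)`, `κ n ≥ N`).
Hypotheses: hE0. -/
def StF5a : Prop := ∀ (L : Type u) [CommRing L] (I : Ideal L[X]) (k₀ : ℕ) (a : ℕ → L) (s : ℕ)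
  (b : Fin s → L) (κ : ℕ) (g : L), Dat I k₀ a b κ g → ∀ p G q' : L[X], DatG I s g p G q' → ∀ N : ℕ,
  ∀ k : ℕ, k₀ ≤ k → (1 - C (a k) * X ^ k) - C (k : L) * G ∈
    I ^ 2 ⊔ Ideal.span (Set.range fun j => C (b j) * X ^ N)

/-- F5. The support at `I`.  `I = (c)`, `s ≥ 1`, `e` elementary with `c e ≡ (γ, b_j X^N)` modulo `I²`, `k` a unit; `û₁ - v₀ ∈ I`,
`p̄^m ∣ Φ û₁ - 1`.  Then `(v₀; c) ~ (û₁; G, h)`.
Proof. F5a: `γ ≡ kG + ∑ μ_j h_j` modulo `I²`, so after one more elementary operation (`e'`) `c e e' ≡ (kG, h)` modulo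
`I²`.  Put `d = c e e'`, `(d) = I`, `c'' = (kG, h)`, `c''_j - d_j ∈ I²`.  B2: `f`, `f - 1 ∈ I`, `d ε = c''` over `A_f`, `ε`
elementary, hence `HId` (B0).  `i = 1 - f ∈ I`.  B1 for `(v₀;d)`, `(û₁;c'')`: over `A_i` `(d) = I A_i = A_i ∋ v₀ - 1`;
`(û₁ - 1) i ∈ (G,h)` by F3c (`p̄^m ∣ Φ(û₁ - 1)`, `1 - Z ∣ Φ i` since `(Φ i)(1) = [i] = 0`), and `(kG,h) = (G,h)` as `k` is a
unit; over `A_f` `û₁ - v₀ ∈ I A_f = (c'')`.  So `(v₀;d) ~ (û₁;kG,h)`; B7: `(v₀;c) ~ (v₀;d)`, `(û₁;kG,h) ~ (û₁;G,h)`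
(diagonal matrix).
Hypotheses: hB0 hB1 hB2 hB7 hF3c hF5a. -/
def StF5 : Prop := ∀ (L : Type u) [CommRing L] (s : ℕ), 1 ≤ s → ∀ (c : Fin (s + 1) → L[X]) (k₀ : ℕ)
  (a : ℕ → L) (b : Fin s → L) (κ : ℕ) (g : L), Dat (idl c) k₀ a b κ g →
  ∀ p G q' : L[X], DatG (idl c) s g p G q' → ∀ (N k : ℕ), k₀ ≤ k → IsUnit (k : L) →
  ∀ e ∈ Elem (Fin (s + 1)) L[X],
  (∀ j, Matrix.vecMul c e j - crow (1 - C (a k) * X ^ k) b N j ∈ idl c ^ 2) →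
  ∀ v₀ û₁ : L[X], û₁ - v₀ ∈ idl c →
  (p.map (algebraMap L (L[X] ⧸ idl c))) ^ (s + 1).factorial ∣ Phi (idl c) û₁ - 1 →
  REq (row v₀ c) (row û₁ (crow G b N))

/-- F. End of the local part.  `L` Noetherian, `(s+1)!` a unit, `s ≥ 1`, `(v₀;c)` unimodular, `I = (c)`, `YK`, dimension
condition: `(v₀;c) ~ (1;0)`.
Proof. `k = ((s+1)!)^t ≥ k₀, 1` for large `t`, a unit of `L`.  E12: `N`, `e`, `b`.  `I = (c e)` (`e` invertible), so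
`I ⊂ (γ, b_j X^N) + I²`: E3 gives `κ, g`.  `[v₀]` is a unit of `B` (unimodularity).  F2: `p, G, q', û`.  F3c with
`P₁ = [v₀]`, `P₂ = 1`: `û₁`; `1 - Z ∣ Φ û₁ - u` means `[û₁] = [v₀]`, i.e. `û₁ - v₀ ∈ I` (E0(b)).  F5, F4, F2:
`(v₀;c) ~ (û₁;G,h) ~ (û;G,h) ~ (1;0)`.
Hypotheses: hB0 hB7 hE0 hE12 hE3 hF2 hF3c hF4 hF5. -/
def StF : Prop := ∀ (L : Type u) [CommRing L] [IsNoetherianRing L] (s : ℕ), 1 ≤ s →
  IsUnit ((s + 1).factorial : L) → ∀ (v₀ : L[X]) (c : Fin (s + 1) → L[X]), Um (row v₀ c) →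
  ringKrullDim (L[X] ⧸ idl c) + 2 ≤ (s + 1 : ℕ) → (∃ (k₀ : ℕ) (a : ℕ → L), YK (idl c) k₀ a) →
  REq (row v₀ c) (row 1 0)

/-- S0. Euclid.  `K` a field: unimodular rows of length `≥ 2` over `K[X]` are elementarily equivalent to every
standard unit row.
Proof. Euclidean algorithm by induction on the sum of the degrees (or: `K[X]` is a Euclidean domain).  If at least two
entries are nonzero, reduce one of larger degree modulo the other.  If exactly one is nonzero it is a unit `u`: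
`(u, 0) → (u, 1) → (0, 1) → ..`.
Hypotheses: none. -/
def StS0 : Prop := ∀ (K : Type u) [Field K] (n : Type) [Fintype n] [DecidableEq n] (i₀ : n),
  (∃ j : n, j ≠ i₀) → ∀ v : n → K[X], Um v → EEq v (Pi.single i₀ 1)

/-- S. THEOREM S.  `L` Noetherian local, `dim L ≤ 2s`, `(s+1)!` a unit, `s ≥ 1`: every unimodular row of length
`s+2` over `L[X]` is equivalent to `(1;0)`.
Proof. If `m = 0`, `L` is a field: S0 (`L` is a field: `IsLocalRing.isField_iff_maximalIdeal_eq`; transfer along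
`IsField.toField`) and `(1;0)` is a standard unit row.  Otherwise D9, then F.
Hypotheses: hB7 hS0 hD9 hF. -/
def StS : Prop := ∀ (L : Type u) [CommRing L] [IsLocalRing L] [IsNoetherianRing L] (s : ℕ),
  1 ≤ s → ringKrullDim L ≤ (2 * s : ℕ) → IsUnit ((s + 1).factorial : L) →
  ∀ (v : L[X]) (d : Fin (s + 1) → L[X]), Um (row v d) → REq (row v d) (row 1 0)

end Pool.Agent.Helper91.GU
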