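import Pool.Agent.Helper91.GU.Defs
import Pool.Agent.Helper91.GU.StB

/-!
# Project GU: block D (general position over `L[T]`)

`L` Noetherian local with maximal ideal `m`.  An `L`-algebra `E` is called punctured if `mE = E`; then no prime of `E`
contracts to `m`.  `r = s + 1`.
-/

set_option autoImplicit false

namespace Pool.Agent.Helper91.GU

open Polynomial IsLocalRing

universe u

/-- D1. Choice of constants.  `S` a finite set of primes of the `L`-algebra `E`, none of which contracts to `m`,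
`ψ ∈ E`: there is `a ∈ m` with `ψ - a ∉ P` for all `P ∈ S`.
Proof. Prime avoidance (`Ideal.subset_union_prime`): `π ∈ m` outside all `P ∩ L` (`m ⊄ P ∩ L` because `P ∩ L ⊂ m` and
`P ∩ L ≠ m`).  Among `π, π², π³, ..` every `P` excludes at most one: if `ψ - π^i, ψ - π^j ∈ P`, `i < j`, then
`π^i (1 - π^{j-i}) ∈ P ∩ L`, and `1 - π^{j-i}` is a unit, so `π ∈ P`.  Infinitely many exponents, finitely many `P`.
Hypotheses: none. -/
def StD1 : Prop := ∀ (L E : Type u) [CommRing L] [IsLocalRing L] [CommRing E] [Algebra L E]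
  (S : Set (Ideal E)), S.Finite →
  (∀ P ∈ S, P.IsPrime ∧ P.comap (algebraMap L E) ≠ maximalIdeal L) → ∀ ψ : E,
  ∃ a ∈ maximalIdeal L, ∀ P ∈ S, ψ - algebraMap L E a ∉ P

/-- D2. Cutting.  `x` outside all minimal primes of `J`, all primes `P ⊇ J` have height `≥ t`: then all primes
`P ⊇ J + (x)` have height `≥ t+1`.
Proof. `P` contains a minimal prime `Q` of `J`; `x ∉ Q`, so `Q < P`: `Ideal.height_add_one_le_of_lt_of_isPrime`.
Hypotheses: none. -/
def StD2 : Prop := ∀ (E : Type u) [CommRing E] (J : Ideal E) (x : E) (t : ℕ),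
  (∀ P ∈ J.minimalPrimes, x ∉ P) → (∀ P : Ideal E, P.IsPrime → J ≤ P → (t : ℕ∞) ≤ P.height) →
  ∀ P : Ideal E, P.IsPrime → J ≤ P → x ∈ P → ((t + 1 : ℕ) : ℕ∞) ≤ P.height

/-- D3. Heights in polynomial rings: `height P ≤ height (P ∩ R) + 1` for a prime `P` of `R[X]`, `R` Noetherian.
Proof. `p = P ∩ R`.  Localise at `p`: `height P = height P R_p[X]` (`IsLocalization.height_under`,
`Polynomial.isLocalization`), which is at most `ringKrullDim R_p[X] = ringKrullDim R_p + 1 = height p + 1`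
(`Polynomial.ringKrullDim_of_isNoetherianRing`, `IsLocalization.AtPrime.ringKrullDim_eq_height`).
Hypotheses: none. -/
def StD3 : Prop := ∀ (R : Type u) [CommRing R] [IsNoetherianRing R] (P : Ideal R[X]) [P.IsPrime],
  P.height ≤ (P.comap C).height + 1

/-- D3'. Punctured localisations.  `δ ≥ dim L`.  (a) `E` a localisation of `L[X]`, punctured: every prime of `E` has
height `≤ δ`.  (b) `E` a localisation of `L[X][X]`, punctured: height `≤ δ + 1`.
Proof. `P` prime of `E`, `Q` its contraction to `L[X]` (resp. `L[X][X]`), same height (`IsLocalization.height_under`);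
`p = Q ∩ L ≠ m`, so `height p + 1 ≤ height m = dim L ≤ δ`; D3 once (twice): `height Q ≤ height p + 1` (`+ 2`).
Hypotheses: hD3. -/
def StD3b : Prop := ∀ (L : Type u) [CommRing L] [IsLocalRing L] [IsNoetherianRing L] (δ : ℕ),
  ringKrullDim L ≤ δ →
  (∀ (E : Type u) [CommRing E] [Algebra L E] [Algebra L[X] E] [IsScalarTower L L[X] E]
    (M : Submonoid L[X]) [IsLocalization M E], (maximalIdeal L).map (algebraMap L E) = ⊤ →
    ∀ P : Ideal E, P.IsPrime → P.height ≤ δ) ∧
  (∀ (E : Type u) [CommRing E] [Algebra L E] [Algebra L[X][X] E] [IsScalarTower L L[X][X] E]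
    (M : Submonoid L[X][X]) [IsLocalization M E], (maximalIdeal L).map (algebraMap L E) = ⊤ →
    ∀ P : Ideal E, P.IsPrime → P.height ≤ (δ + 1 : ℕ))

/-- D4. Heights of leading coefficients.  `J` an ideal of `L[X]`, `L` Noetherian, all primes `P ⊇ J` have height `≥ t`;
then all primes `p ⊇ J.leadingCoeff` have height `≥ t`.
Proof. `J` contains a product `∏ P_i` of minimal primes of `J` (with repetitions; Noetherian, or
`Ideal.exists_pow_le_of..`/`(∏ minimal primes)^N ≤ J`), and `lc(P)·lc(P') ⊂ lc(P P')`, so `∏ lc(P_i) ⊂ lc(J) ⊂ p` and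
`lc(P) ⊂ p` for one prime `P ⊇ J`.  `p₀ = P ∩ L ⊂ lc(P)`.  If `P = p₀ L[X]`: `height P = height p₀ ≤ height p`
(`Ideal.height_map_C`-type lemma, or D3-free: `height p₀L[X] ≤ height p₀` from `height_le`; see
`Polynomial` height lemmas in `KrullDimension/Polynomial.lean`).  Otherwise some `f ∈ P` has a leading coefficient
outside `p₀` (remove leading terms with coefficients in `p₀`), so `p₀ < p` and
`height P ≤ height p₀ + 1 ≤ height p` (D3).
Hypotheses: hD3. -/
def StD4 : Prop := ∀ (L : Type u) [CommRing L] [IsNoetherianRing L] (J : Ideal L[X]) (t : ℕ),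
  (∀ P : Ideal L[X], P.IsPrime → J ≤ P → (t : ℕ∞) ≤ P.height) →
  ∀ p : Ideal L, p.IsPrime → J.leadingCoeff ≤ p → (t : ℕ∞) ≤ p.height

/-- D5a. Constants times one entry.  `g ∈ mL[X]`, `(u_1..u_r, g)` unimodular: there are `h_l ∈ m` such that all primes
containing all `u_l + h_l g` have height `≥ r`.
Proof. `E = Localization.Away g` is punctured (`g` is a combination of elements of `m`).  Choose `h_l` one after the
other: `u_l/g + h_l` outside the minimal primes of the ideal generated by the previous ones in `E` (D1, with `-h_l`;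
finitely many minimal primes, `E` Noetherian), D2: primes of `E` containing all `u_l/g + h_l` have height `≥ r`.  A prime
`P` of `L[X]` containing all `u_l + h_l g` does not contain `g` (unimodularity), so it comes from `E`, with the same
height.
Hypotheses: hD1 hD2. -/
def StD5a : Prop := ∀ (L : Type u) [CommRing L] [IsLocalRing L] [IsNoetherianRing L] (r : ℕ)
  (g : L[X]) (u : Fin r → L[X]), g ∈ (maximalIdeal L).map C →
  Ideal.span (insert g (Set.range u)) = ⊤ →
  ∃ h : Fin r → L, (∀ l, h l ∈ maximalIdeal L) ∧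
    ∀ P : Ideal L[X], P.IsPrime → (∀ l, u l + C (h l) * g ∈ P) → (r : ℕ∞) ≤ P.height

/-- D5b. A polynomial with a good leading coefficient.  `m ≠ 0`, all primes `p ⊇ J.leadingCoeff` have height `≥ r`.  For every
`d` there is `w ∈ J ∩ mL[X]`, `w ≠ 0`, `natDegree w ≥ d`, whose leading coefficient lies outside every minimal prime
`p ≠ m` of the ideal `𝔞` with `height p < r`.
Proof. `𝔟 = m · lc(J)`.  Such a `p` does not contain `𝔟` (`p ≠ m` means `m ⊄ p`; `lc(J) ⊄ p` by the height).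
Prime avoidance gives `c ∈ 𝔟` outside all of them (finitely many); `c ≠ 0` can be arranged: if there is at least one
such `p` it is automatic; otherwise take any nonzero `c ∈ 𝔟`, and `𝔟 ≠ 0`: if `m · lc(J) = 0`, let `q` be a minimal
prime of `L`; `lc(J) ⊄ q` when `r ≥ 1` and `lc(J) ≠ ⊤` (height), so `m ⊂ q`, `q = m` has height `0`, but `lc(J) ⊂ m` has
height `≥ r ≥ 1`; if `lc(J) = ⊤` then `m = 0`.  `c = ∑ μ_i l_i`, `μ_i ∈ m`, `l_i` the leading coefficient of `w_i ∈ J`:
`w = ∑ μ_i w_i X^{D - deg w_i}` for large `D` has coefficient `c` at `X^D` and degree `D`.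
Hypotheses: none. -/
def StD5b : Prop := ∀ (L : Type u) [CommRing L] [IsLocalRing L] [IsNoetherianRing L] (r : ℕ),
  1 ≤ r → maximalIdeal L ≠ ⊥ → ∀ (J : Ideal L[X]) (𝔞 : Ideal L) (d : ℕ),
  (∀ p : Ideal L, p.IsPrime → J.leadingCoeff ≤ p → (r : ℕ∞) ≤ p.height) →
  ∃ w ∈ J, w ∈ (maximalIdeal L).map C ∧ w ≠ 0 ∧ d ≤ w.natDegree ∧
    ∀ p ∈ 𝔞.minimalPrimes, p ≠ maximalIdeal L → p.height < r → w.leadingCoeff ∉ p

/-- D5. First stage.  `(v₀; c)` unimodular over `L[X]`, length `1 + (s+1)`, `v₀ ∈ mL[X]`, `c_j ∈ mL[X]` for `j < s`,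
`c_s - 1 ∈ mL[X]`, `m ≠ 0`.  There is an equivalent row `(v₀'; c')` with the same congruences, `c'_j` (`j < s`) of
degree `≥ deg v₀' + 2`, such that every prime of `L` containing the leading coefficients of `c'_0, .., c'_{s-1}` is `m`
or has height `≥ s`.
Proof. Let `D` be a bound for all degrees of the given entries.  Induction on `k ≤ s`: an equivalent row with the same
congruences such that `v₀'`, `c'_j` (`j ≥ k`) have degree `≤ D`, `c'_j` (`j < k`) has degree `≥ D+2` and every prime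
containing the leading coefficients of `c'_0..c'_{k-1}` is `m` or has height `≥ k`.  Step `k → k+1`: (a) apply D5a with
`g = c'_k`, `u` = the other `s+1` entries (`v₀'` and `c'_l`, `l ≠ k`), `r = s+1`, and replace the other entries by
`u_l + h_l g` (elementary; congruences mod `m` kept; degrees `≤ D` stay `≤ D`; for `l < k` degree and leading
coefficient are unchanged because `deg g ≤ D < deg c'_l`).  (b) `J` = ideal of the other entries; D4: all primes
containing `J.leadingCoeff` have height `≥ s+1`.  D5b (`r = s+1`, `𝔞` = ideal of the leading coefficients of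
`c'_0..c'_{k-1}`, `d = D+2`) gives `w`; replace `c'_k` by `c'_k + w` (elementary since `w ∈ J`), leading coefficient that
of `w`.  A prime `p` containing all `k+1` leading coefficients contains a minimal prime `p'` of `𝔞`; if
`p ≠ m`: either `p' < p`, `p' ≠ m` has height `≥ k`, so `height p ≥ k+1`; or `p' = p`, then
`w.leadingCoeff ∈ p'`, so `height p' ≥ s+1 ≥ k+1`.
Hypotheses: hB7 hD4 hD5a hD5b. -/
def StD5 : Prop := ∀ (L : Type u) [CommRing L] [IsLocalRing L] [IsNoetherianRing L] (s : ℕ),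
  maximalIdeal L ≠ ⊥ → ∀ (v₀ : L[X]) (c : Fin (s + 1) → L[X]), Um (row v₀ c) →
  v₀ ∈ (maximalIdeal L).map C → (∀ j : Fin s, c j.castSucc ∈ (maximalIdeal L).map C) →
  c (Fin.last s) - 1 ∈ (maximalIdeal L).map C →
  ∃ (v₀' : L[X]) (c' : Fin (s + 1) → L[X]), REq (row v₀ c) (row v₀' c') ∧
    v₀' ∈ (maximalIdeal L).map C ∧ c' (Fin.last s) - 1 ∈ (maximalIdeal L).map C ∧
    (∀ j : Fin s, v₀'.natDegree + 2 ≤ (c' j.castSucc).natDegree) ∧
    ∀ p : Ideal L, p.IsPrime → (∀ j : Fin s, (c' j.castSucc).leadingCoeff ∈ p) →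
      p = maximalIdeal L ∨ (s : ℕ∞) ≤ p.height

/-- D6. Second stage, abstract form: the choice of `α_j, β_j`.  `E0, E1, E2` punctured Noetherian `L`-algebras.
Proof. First choose `β_0, .., β_{r-1} ∈ m` successively such that `ψ_j - β_j` avoids the minimal primes of the ideal
generated by the previous ones in `E0` (D1); by D2 every prime of `E0` containing all `ψ_j - β_j` has height `≥ r`.
Then choose `α_0, α_1, ..` successively in `m` such that simultaneously `χ_j - α_j` avoids the minimal primes of the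
ideal generated in `E0` by all `ψ_l - β_l` and the previous `χ_l - α_l`, and `φ1_j - β_j x1 - α_j` (resp. `φ2_j - ..`)
avoids the minimal primes of the ideal of the previous ones in `E1` (resp. `E2`): one application of D1 to the
`L`-algebra `E0 × E1 × E2` (or D1 for the three finite sets; the proof of D1 works for three algebras at once:
choose `π` outside all contractions).  By D2 primes of `E0` containing everything have height `≥ 2r`, primes of
`E1`, `E2` have height `≥ r`; the assumptions on `E0`, `E1` say that there are none.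
Hypotheses: hD1 hD2. -/
def StD6 : Prop := ∀ (L E0 E1 E2 : Type u) [CommRing L] [IsLocalRing L] [CommRing E0] [CommRing E1]
  [CommRing E2] [IsNoetherianRing E0] [IsNoetherianRing E1] [IsNoetherianRing E2] [Algebra L E0]
  [Algebra L E1] [Algebra L E2], (maximalIdeal L).map (algebraMap L E0) = ⊤ →
  (maximalIdeal L).map (algebraMap L E1) = ⊤ → (maximalIdeal L).map (algebraMap L E2) = ⊤ →
  ∀ (r : ℕ) (ψ χ : Fin r → E0) (φ1 : Fin r → E1) (x1 : E1) (φ2 : Fin r → E2) (x2 : E2),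
  (∀ P : Ideal E0, P.IsPrime → P.height < (2 * r : ℕ)) →
  (∀ P : Ideal E1, P.IsPrime → P.height < r) →
  ∃ α β : Fin r → L, (∀ j, α j ∈ maximalIdeal L) ∧ (∀ j, β j ∈ maximalIdeal L) ∧
    Ideal.span (Set.range (fun j => ψ j - algebraMap L E0 (β j)) ∪
      Set.range (fun j => χ j - algebraMap L E0 (α j))) = ⊤ ∧
    Ideal.span (Set.range fun j => φ1 j - algebraMap L E1 (β j) * x1 - algebraMap L E1 (α j)) = ⊤ ∧
    ∀ P : Ideal E2, P.IsPrime →
      (∀ j, φ2 j - algebraMap L E2 (β j) * x2 - algebraMap L E2 (α j) ∈ P) → (r : ℕ∞) ≤ P.height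

/-- D7. Second stage, concrete form.  `dim L ≤ 2s`, `(v₀;c)` as produced by D5.  There are `α_j, β_j ∈ m` such that for
`c'_j = c_j + (α_j + β_j X) v₀`, `I = (c')`:
(b) any two points `t, t'` with `c'_j(t) = 0 = c'_j(t')` in the same `L`-algebra are equal;
(c) the ideal `𝔞` generated by the leading coefficients of `c_0..c_{s-1}` generates the unit ideal of `L[X]/I`;
(d) `dim L[X]/I + 2 ≤ s + 1`.
Proof. `E2 = Localization.Away v₀` (of `L[X]`), `E1 = E2/𝔞E2`, `E0` = localisation of `L[X][X]` at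
`v₀(T) v₀(T')` with `T = C X`, `T' = X` (`v₀(T) = C v₀`, `v₀(T') = v₀.map C`); all punctured because `v₀ ∈ mL[X]`,
Noetherian.  `φ_j = -c_j/v₀` in `E2`, `φ1_j` its image, `x2, x1` = image of `X`.  There are `Δ_j ∈ E0` with
`(T - T') Δ_j = φ_j(T) - φ_j(T')` (`c_j(T) v₀(T') - c_j(T') v₀(T)` is divisible by `T - T'`:
`Polynomial.sub_dvd_eval_sub` twice, or `Polynomial.evalSubFactor`).  `ψ_j = Δ_j`, `χ_j = φ_j(T) - T Δ_j`, `r = s+1`.
Heights: `E0`: `≤ dim L + 1 ≤ 2s+1 < 2(s+1)` (D3').  `E2`: `≤ dim L`.  `E1`: a prime corresponds to a prime of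
`(L/𝔞)[X]` not containing `v₀`; `L/𝔞` is local with `dim ≤ s` (a chain of primes `𝔞 ⊂ p_0 < .. < p_k ⊂ m`, `k ≥ 1`:
`p_0 ≠ m` has height `≥ s` in `L`, so `s + k ≤ 2s`), so heights in `E1` are `≤ s < s+1` (D3' (a) for `L/𝔞`; if
`L/𝔞` has dimension `0` then `E1 = 0`).  Apply D6.
(b): `D` an `L`-algebra, `t, t'` as above.  Since `(v₀;c')` is unimodular, `v₀(t), v₀(t')` are units; `φ_j(t) = α_j + β_j t`
(from `c_j(t) = -(α_j + β_j t) v₀(t)`).  The map `E0 → D`, `T ↦ t`, `T' ↦ t'` sends `(T-T')(Δ_j - β_j)` to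
`φ_j(t) - φ_j(t') - β_j(t-t') = 0` and `χ_j - α_j` to `-t(Δ_j - β_j)`; so `t - t'` kills the image of the unit ideal
generated by the `ψ_j - β_j`, `χ_j - α_j`: `t = t'`.
(c): the image of `E1`: `L[X]/(I + 𝔞) `: there `v₀` is a unit and all `φ_j - β_j X - α_j = -c'_j/v₀ = 0`, so it is `0`.
(d): `L[X]/I = E2/(φ_j - β_j X - α_j)`; a chain of `k+1` primes in it gives primes of `E2` of height `≥ (s+1) + i`,
so `s + 1 + k ≤ 2s`, `k ≤ s-1`.  (`dim = ⊥` if `I = ⊤`.)
Hypotheses: hD3 hD3b hD6. -/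
def StD7 : Prop := ∀ (L : Type u) [CommRing L] [IsLocalRing L] [IsNoetherianRing L] (s : ℕ),
  1 ≤ s → ringKrullDim L ≤ (2 * s : ℕ) → ∀ (v₀ : L[X]) (c : Fin (s + 1) → L[X]),
  Um (row v₀ c) → v₀ ∈ (maximalIdeal L).map C → ∀ (𝔞 : Ideal L),
  (∀ p : Ideal L, p.IsPrime → 𝔞 ≤ p → p = maximalIdeal L ∨ (s : ℕ∞) ≤ p.height) →
  ∃ α β : Fin (s + 1) → L, (∀ j, α j ∈ maximalIdeal L) ∧ (∀ j, β j ∈ maximalIdeal L) ∧
    let I := idl (fun j => c j + (C (α j) + C (β j) * X) * v₀)
    (∀ (D : Type u) [CommRing D] [Algebra L D] (t t' : D),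
      (∀ P ∈ I, aeval t P = 0) → (∀ P ∈ I, aeval t' P = 0) → t = t') ∧
    𝔞.map (algebraMap L (L[X] ⧸ I)) = ⊤ ∧
    ringKrullDim (L[X] ⧸ I) + 2 ≤ (s + 1 : ℕ)

/-- D8. Powers of `y = x⁻¹` come from `L`.  `L` Noetherian, `I` an ideal of `L[X]`.  (1) `I` contains a polynomial whose
constant coefficient is a unit; (2) two `L`-algebra points of `V(I)` in the same algebra coincide; (3) the ideal of `L`
generated by leading coefficients of elements of `I` of degree `≥ 1` generates the unit ideal of `B = L[X]/I`.  Then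
for all large `k` there is `c ∈ L` with `1 - c X^k ∈ I`.
Proof. `x` = class of `X`, `L̄` = image of `L` in `B`.  By (1) `ε_0 + ε_1 x + .. = 0` with `ε_0` a unit: `x` is a unit and
`y = x⁻¹` is integral over `L̄` (multiply by `y^n`).  `C = L̄[y]` is finite over `L̄`, `B = C[1/y]`.  If
`a x^n + a_{n-1} x^{n-1} + .. + a_0 = 0`, `n ≥ 1`, then `a = -(a_{n-1} y + ..) ∈ yC`.  So `𝔞 (C/yC) = 0` with `𝔞` from (3).
Let `D = C ⊗_L B`, a finite `B`-algebra (second factor).  `D/(y⊗1)D` is killed by `𝔞 B = B`, so it is `0`: `y⊗1` is a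
unit of `D`.  `t = (y⊗1)⁻¹` and `t' = 1⊗x` are points of `V(I)` (`B = C[1/y] → D`), so `t = t'` by (2):
`y⊗1 = 1⊗y` in `D`.  Hence `D` is generated by `1` over `B`, i.e. `Q ⊗_L B = 0` for the finite `L`-module
`Q = C/L̄`.  Let `𝔫 = Ann_L(Q)`.  Claim: `y` lies in the radical of `𝔫C`.  Otherwise a prime `𝔮 ⊇ 𝔫C` of `C` with
`y ∉ 𝔮`; `p = 𝔮 ∩ L ⊇ 𝔫`, so `Q_p ≠ 0` and `Q ⊗ κ(p) ≠ 0` (Nakayama;
`Module.mem_support_iff_nontrivial_residueField_tensorProduct`), so `Q ⊗_L κ(𝔮) ≠ 0`; but `κ(𝔮)` is a `B`-algebra: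
contradiction.  So `y^{k₀} ∈ 𝔫C`, `y^k ∈ 𝔫 C ⊂ L̄` for all `k ≥ k₀` (`y^k = y^{k-k₀} y^{k₀}`, `𝔫 C ⊂ L̄` by definition
of `Q`).  `y^k = c̄` means `1 - c X^k ∈ I`.
Hypotheses: none. -/
def StD8 : Prop := ∀ (L : Type u) [CommRing L] [IsNoetherianRing L] (I : Ideal L[X]),
  (∃ P ∈ I, IsUnit (P.coeff 0)) →
  (∀ (D : Type u) [CommRing D] [Algebra L D] (t t' : D),
    (∀ P ∈ I, aeval t P = 0) → (∀ P ∈ I, aeval t' P = 0) → t = t') →
  (∃ S : Set L, (∀ a ∈ S, ∃ P ∈ I, 1 ≤ P.natDegree ∧ P.leadingCoeff = a) ∧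
    (Ideal.span S).map (algebraMap L (L[X] ⧸ I)) = ⊤) →
  ∃ k₀ : ℕ, ∀ k, k₀ ≤ k → ∃ c : L, 1 - C c * X ^ k ∈ I

/-- D9. General position, final form.  `dim L ≤ 2s`, `s ≥ 1`, `m ≠ 0`, `v ∈ Um_{s+2}(L[X])`.  There is an equivalent row
`(v₀;c)` such that with `I = (c)`: `1 - c_k X^k ∈ I` for all large `k` and suitable `c_k ∈ L`, and
`dim L[X]/I + 2 ≤ s+1`.
Proof. Over the field `k = L/m` the ring `k[X]` is Euclidean, so `v mod m` is elementarily equivalent to
`(0;0,..,0,1)` (Euclid; length `≥ 2`); lift the elementary matrices to `L[X]`.  D5, D7 with `𝔞` generated by the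
leading coefficients of `c_j`, `j < s`; `c'_j = c_j + (α_j + β_j X)v₀` has the same leading coefficient and positive
degree (`deg c_j ≥ deg v₀ + 2`); `c'_s(0)` is a unit since `c'_s - 1 ∈ mL[X]`.  D8.
Hypotheses: hB0 hB7 hD5 hD7 hD8. -/
def StD9 : Prop := ∀ (L : Type u) [CommRing L] [IsLocalRing L] [IsNoetherianRing L] (s : ℕ),
  1 ≤ s → ringKrullDim L ≤ (2 * s : ℕ) → maximalIdeal L ≠ ⊥ → ∀ (v : L[X]) (d : Fin (s + 1) → L[X]),
  Um (row v d) → ∃ (v₀ : L[X]) (c : Fin (s + 1) → L[X]), REq (row v d) (row v₀ c) ∧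
    (∃ k₀ : ℕ, ∀ k, k₀ ≤ k → ∃ a : L, 1 - C a * X ^ k ∈ idl c) ∧
    ringKrullDim (L[X] ⧸ idl c) + 2 ≤ (s + 1 : ℕ)

end Pool.Agent.Helper91.GU
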