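import Pool.Agent.Helper91.GU.Defs
import Pool.Agent.Helper91.GU.StA
import Pool.Agent.Helper91.GU.StB
import Pool.Agent.Helper91.GU.StF

/-!
# Project GU: block H (graded subalgebras; the end)

`IsGr A`: the subalgebra `A` of `R[X_1..X_n]` is graded.
-/

set_option autoImplicit false

namespace Pool.Agent.Helper91.GU

open Polynomial

universe u

/-- the subalgebra `A` of `R[X_1, .., X_n]` contains the homogeneous components of its elements -/
def IsGr {R : Type u} [CommRing R] {n : ℕ} (A : Subalgebra R (MvPolynomial (Fin n) R)) : Prop :=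
  ∀ f ∈ A, ∀ i : ℕ, MvPolynomial.homogeneousComponent i f ∈ A

/-- H1a. One generator.
Proof. `D' = D[X]/P`, `P` prime.  `dim D[X] = dim D + 1` (`Polynomial.ringKrullDim_of_isNoetherianRing`), and a
quotient has at most this dimension (`ringKrullDim_le_of_surjective`).  If `a` is algebraic over `D`, `P` contains
`r ≠ 0`, and `dim D[X]/(r) + 1 ≤ dim D[X]` (`ringKrullDim_quotient_succ_le_of_nonZeroDivisor`); cancel the `1`.
Hypotheses: none. -/
def StH1a : Prop := ∀ (D D' : Type u) [CommRing D] [IsDomain D] [IsNoetherianRing D] [CommRing D']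
  [IsDomain D'] [Algebra D D'] (a : D'), Function.Injective (algebraMap D D') →
  Algebra.adjoin D {a} = ⊤ →
  ringKrullDim D' ≤ ringKrullDim D + 1 ∧ (IsAlgebraic D a → ringKrullDim D' ≤ ringKrullDim D)

/-- H1b. Dimension inequality: `dim D' ≤ dim D + trdeg`.
Proof. For finite `S ⊂ D'` show by induction on `S`, for all `n`: `trdeg D (adjoin D S) ≤ n` implies
`dim (adjoin D S) ≤ dim D + n`.  `S = ∅`: `adjoin = ⊥ ≅ D`.  Step: `D₁ = adjoin D S` (a Noetherian domain),
`D₂ = adjoin D (insert a S) = D₁[a]`.  If `a` is algebraic over `D₁`: H1a and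
`trdeg D D₁ ≤ trdeg D D₂` (`Algebra.trdeg_le_of_injective`).  Otherwise `1 ≤ trdeg D₁ D₂`
and `trdeg D D₁ + trdeg D₁ D₂ = trdeg D D₂` (`Algebra.trdeg_add_eq`), so `n ≥ 1`, `trdeg D D₁ ≤ n - 1`; H1a.
Hypotheses: hH1a. -/
def StH1b : Prop := ∀ (D D' : Type u) [CommRing D] [IsDomain D] [IsNoetherianRing D] [CommRing D']
  [IsDomain D'] [Algebra D D'], Function.Injective (algebraMap D D') → Algebra.FiniteType D D' →
  ∀ n : ℕ, Algebra.trdeg D D' ≤ n → ringKrullDim D' ≤ ringKrullDim D + n

/-- H1c. The dimension is computed modulo minimal primes.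
Proof. A chain of primes `Q₀ < .. < Q_k` of `A`: `Q₀` contains a minimal prime `P₀`
(`Ideal.exists_minimalPrimes_le`), and the chain comes from a chain in `A/P₀`
(`Ideal.comap`/`PrimeSpectrum` of a quotient); or use the height of a prime `Q`.
Hypotheses: none. -/
def StH1c : Prop := ∀ (A : Type u) [CommRing A] (N : ℕ),
  (∀ P₀ ∈ minimalPrimes A, ringKrullDim (A ⧸ P₀) ≤ N) → ringKrullDim A ≤ N

/-- H1d. `trdeg D D' ≤ n` if `D'` embeds into a domain `E` generated by `n` elements over `D`.
Proof. `trdeg D D' ≤ trdeg D E` (`Algebra.trdeg_le_of_injective`) and `trdeg D E ≤ trdeg D D[X_1..X_n] = n`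
(`Algebra.trdeg_le_of_surjective`, `MvPolynomial.trdeg_of_isDomain`), or: the images of the variables generate `E`,
so they contain a transcendence basis.
Hypotheses: none. -/
def StH1d : Prop := ∀ (D D' E : Type u) [CommRing D] [IsDomain D] [CommRing D'] [IsDomain D']
  [CommRing E] [IsDomain E] [Algebra D D'] [Algebra D E] (n : ℕ),
  Function.Injective (algebraMap D E) →
  ∀ (φ : D' →ₐ[D] E) (ψ : MvPolynomial (Fin n) D →ₐ[D] E), Function.Injective φ →
  Function.Surjective ψ → Algebra.trdeg D D' ≤ n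

/-- H1. A finitely generated subalgebra of `R[X_1..X_n]` has dimension at most `d + n`.
Proof. By H1c it suffices to bound `dim A/P₀`, `P₀` a minimal prime.  `P₀ = A ∩ Q` for a prime `Q` of
`R[X_1..X_n]` (`Ideal.exists_comap_eq_of_mem_minimalPrimes_of_injective`).  `D = R/(R ∩ P₀)`, `D' = A/P₀`,
`E = R[X_1..X_n]/Q`: `D ⊂ D' ⊂ E`, `E` is generated by `n` elements over `D`; H1d, H1b, `dim D ≤ dim R ≤ d`.
Hypotheses: hH1b hH1c hH1d. -/
def StH1 : Prop := ∀ (R : Type u) [CommRing R] [IsNoetherianRing R] (d n : ℕ),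
  ringKrullDim R ≤ d → ∀ A : Subalgebra R (MvPolynomial (Fin n) R), A.FG →
  ringKrullDim A ≤ (d + n : ℕ)

/-- H2. The homotopy of a graded algebra.
Proof. The ring map `Γ' : R[X_1..X_n] → R[X_1..X_n][T]`, `X_j ↦ X_j T` (`MvPolynomial.eval₂Hom`), has
`coeff i (Γ' f) = homogeneousComponent i f` (check on monomials), so it sends `A` into polynomials with coefficients
in `A` (`Polynomial.lifts`, or define `Γ f = ∑ i ∈ range (totalDegree + 1), C f_i * T^i` and use that
`A[T] → R[X_1..X_n][T]` is injective).  `π` = constant coefficient.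
Hypotheses: none. -/
def StH2 : Prop := ∀ (R : Type u) [CommRing R] (n : ℕ)
  (A : Subalgebra R (MvPolynomial (Fin n) R)), IsGr A →
  ∃ (Γ : A →+* A[X]) (π : A →+* R), (∀ f : A, (Γ f).eval 1 = f) ∧
    (∀ f : A, (Γ f).eval 0 = algebraMap R A (π f)) ∧ ∀ r : R, Γ (algebraMap R A r) =
      C (algebraMap R A r)

/-- H3. Finitely many elements of a graded subalgebra lie in a finitely generated graded subalgebra.
Proof. `A' = adjoin R` of all homogeneous components (degree `≤ totalDegree`) of the elements of `S`.  It is graded: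
the elements all of whose components lie in `A'` form a subalgebra (`homogeneousComponent i (f g) =
∑_{j+k=i} f_j g_k`) containing the generators (components of a homogeneous element are it or `0`).
Hypotheses: none. -/
def StH3 : Prop := ∀ (R : Type u) [CommRing R] (n : ℕ)
  (A : Subalgebra R (MvPolynomial (Fin n) R)), IsGr A →
  ∀ S : Finset (MvPolynomial (Fin n) R), (∀ f ∈ S, f ∈ A) →
  ∃ A' : Subalgebra R (MvPolynomial (Fin n) R), A' ≤ A ∧ A'.FG ∧ IsGr A' ∧ ∀ f ∈ S, f ∈ A'

/-- H4. Over a local ring every unimodular row of length `r + 1` is equivalent to `(1;0)`.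
Proof. Some entry is a unit (the sum `∑ v_j y_j = 1`).  If it is the first one: B7.  If `v_j` is a unit, `j` in the
second block: `1 ∈ (c)`, B7.
Hypotheses: hB7. -/
def StH4 : Prop := ∀ (R : Type u) [CommRing R] [IsLocalRing R] (r : ℕ) (a : R) (c : Fin r → R),
  Um (row a c) → REq (row a c) (row 1 0)

/-- H5. The finitely generated case.  `A` finitely generated graded, `v` a unimodular row of length
`s + 2` over `A`, `dim R ≤ d`, `d + n ≤ 2 s`.
Proof. `Γ, π` as in H2, `V = Γ v` (row over `A[T]`), a unimodular row.  For a maximal ideal `𝔫` of `A`, `L = A_𝔫` is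
Noetherian (`A` is Noetherian by Hilbert) and `dim L ≤ dim A ≤ 2s` (H1; `IsLocalization.AtPrime.ringKrullDim_eq_height`,
`Ideal.height_le_ringKrullDim_of_ne_top`), `(s+1)!` is a unit in `L`.  S over `L[T]` for the image of `V` and for the
image of the constant row `V(0)` (unimodular over `A`, hence over `L[T]`): both are `~ (1;0)`, so the hypothesis of A5
holds for `V` (any index type `Unit + Fin (s+1)`).  A5: `V ~ V(0)` over `A[T]`.  Apply `T ↦ 1`: `v ~ V(0)` over `A`
(REq of images, B7, with `eval 1`; `V(1) = v`).  `V(0)` is the image of the row `π v` over `R` (H2), which is unimodular,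
so H4 and B7 (image under `algebraMap R A`): `V(0) ~ (1;0)`.
Hypotheses: hS hA5 hB7 hH1 hH2 hH4. -/
def StH5 : Prop := ∀ (R : Type u) [CommRing R] [IsLocalRing R] [IsNoetherianRing R] (d n s : ℕ),
  1 ≤ s → ringKrullDim R ≤ d → d + n ≤ 2 * s → IsUnit ((s + 1).factorial : R) →
  ∀ A : Subalgebra R (MvPolynomial (Fin n) R), A.FG → IsGr A →
  ∀ (a : A) (c : Fin (s + 1) → A), Um (row a c) → REq (row a c) (row 1 0)

/-- GU. THEOREM GU.
Proof. Let `s = d - 1`.  H3 for the finite set of all entries of `v`, `w`: `A'` finitely generated graded; the row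
`v' = v` over `A'` is unimodular.  H5 (`d + n ≤ 2(d-1)`): `v' g = (1;0)` over `A'`, so over `A` (image under the
inclusion).  `v = (1;0) g⁻¹` is the first row of `g⁻¹`; multiply the second row of `g⁻¹` by `det g` to get determinant
`1` (`d + 1 ≥ 2`).  Reindex `Fin (d+1) ≅ Unit ⊕ Fin d` (`0 ↦ inl ()`, `j.succ ↦ inr j`).
Hypotheses: hH3 hH5 hB7. -/
def StGU : Prop := ∀ (R : Type u) [CommRing R] [IsLocalRing R] [IsNoetherianRing R] (d n : ℕ),
  2 ≤ d → ringKrullDim R ≤ d → n + 2 ≤ d → IsUnit (d.factorial : R) →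
  ∀ A : Subalgebra R (MvPolynomial (Fin n) R), IsGr A →
  ∀ v w : Fin (d + 1) → A, ∑ j, v j * w j = 1 →
  ∃ M : Matrix (Fin (d + 1)) (Fin (d + 1)) A, M.det = 1 ∧ ∀ j, M 0 j = v j

end Pool.Agent.Helper91.GU
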