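import Pool.Agent.Helper80.GU.M_A0
import Pool.Agent.Helper22.GU.M_A1
import Pool.Agent.Helper95.GU.M_A2
import Pool.Agent.Helper2.GU.M_A3
import Pool.Agent.Helper2.GU.M_A4
import Pool.Agent.Helper60.GU.M_A5
import Pool.Agent.Helper67.GU.M_B0
import Pool.Agent.Helper82.GU.M_B1
import Pool.Agent.Helper93.GU.M_B2
import Pool.Agent.Helper86.GU.M_B3
import Pool.Agent.Helper85.GU.M_B4
import Pool.Agent.Helper15.GU.M_B6
import Pool.Agent.Helper22.GU.M_B7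
import Pool.Agent.Helper82.GU.M_C5
import Pool.Agent.Helper78.GU.M_D1
import Pool.Agent.Helper78.GU.M_D2
import Pool.Agent.Helper78.GU.M_D3
import Pool.Agent.Helper78.GU.M_D3b
import Pool.Agent.Helper16.GU.M_D4
import Pool.Agent.Helper94.GU.M_D5a
import Pool.Agent.Helper41.GU.M_D5b
import Pool.Agent.Helper75.GU.M_D5
import Pool.Agent.Helper93.GU.M_D6
import Pool.Agent.Helper65.GU.M_D7
import Pool.Agent.Helper81.GU.M_D8
import Pool.Agent.Helper43.GU.M_D9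
import Pool.Agent.Helper39.GU.M_E0
import Pool.Agent.Helper67.GU.M_EB
import Pool.Agent.Helper80.GU.M_E1
import Pool.Agent.Helper4.GU.M_E2a
import Pool.Agent.Helper29.GU.M_E2b
import Pool.Agent.Helper84.GU.M_E2
import Pool.Agent.Helper15.GU.M_E12
import Pool.Agent.Helper61.GU.M_E3
import Pool.Agent.Helper27.GU.M_F1
import Pool.Agent.Helper81.GU.M_F2
import Pool.Agent.Helper94.GU.M_F3
import Pool.Agent.Helper27.GU.M_F3c
import Pool.Agent.Helper27.GU.M_F4a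
import Pool.Agent.Helper93.GU.M_F5a
import Pool.Agent.Helper93.GU.M_F5
import Pool.Agent.Helper61.GU.M_S0
import Pool.Agent.Helper84.GU.M_H1a
import Pool.Agent.Helper4.GU.M_H1b
import Pool.Agent.Helper7.GU.M_H1c
import Pool.Agent.Helper2.GU.M_H1d
import Pool.Agent.Helper2.GU.M_H1
import Pool.Agent.Helper75.GU.M_H2
import Pool.Agent.Helper28.GU.M_H3
import Pool.Agent.Helper68.GU.M_H4
import Pool.Agent.Helper58.GU.M_B5
import Pool.Agent.Helper79.GU.M_B45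
import Pool.Agent.Helper41.GU.M_F4
import Pool.Agent.Helper60.GU.M_F
import Pool.Agent.Helper75.GU.M_S
import Pool.Agent.Helper67.GU.M_H5
import Pool.Agent.Helper85.GU.M_GU
import Pool.Agent.Helper91.GU.StH

/-!
# Project GU (MP_b1e6de_al): assembly of all modules
-/

set_option autoImplicit false

namespace Pool.Agent.Helper91.GU

universe u

theorem aA0 : StA0.{u} := Pool.Agent.Helper80.GU.hA0.{u} 
theorem aA1 : StA1.{u} := Pool.Agent.Helper22.GU.hA1.{u} 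
theorem aA2 : StA2.{u} := Pool.Agent.Helper95.GU.hA2.{u} aA1.{u}
theorem aA3 : StA3.{u} := Pool.Agent.Helper2.GU.hA3.{u} 
theorem aA4 : StA4.{u} := Pool.Agent.Helper2.GU.hA4.{u} aA2.{u} aA3.{u}
theorem aA5 : StA5.{u} := Helper60.GU.hA5.{u} aA1.{u}
theorem aB0 : StB0.{u} := Pool.Agent.Helper67.GU.hB0.{u} 
theorem aB1 : StB1.{u} := Pool.Agent.Helper82.GU.hB1.{u} aA0.{u} aA4.{u} aB0.{u}
theorem aB2 : StB2.{u} := Pool.Agent.Helper93.GU.hB2.{u} aB0.{u}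
theorem aB3 : StB3.{u} := Pool.Agent.Helper86.GU.hB3.{u} 
theorem aB4 : StB4.{u} := Pool.Agent.Helper85.GU.hB4.{u} aA4.{u} aB0.{u}
theorem aB6 : StB6.{u} := Pool.Agent.Helper15.GU.hB6.{u} 
theorem aB7 : StB7.{u} := Pool.Agent.Helper22.GU.hB7.{u} 
theorem aC5 : StC5.{u} := Pool.Agent.Helper82.GU.hC5.{u} 
theorem aD1 : StD1.{u} := Pool.Agent.Helper78.GU.hD1.{u} 
theorem aD2 : StD2.{u} := Pool.Agent.Helper78.GU.hD2.{u} 
theorem aD3 : StD3.{u} := Pool.Agent.Helper78.GU.hD3.{u} 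
theorem aD3b : StD3b.{u} := Pool.Agent.Helper78.GU.hD3b.{u} aD3.{u}
theorem aD4 : StD4.{u} := Pool.Agent.Helper16.GU.hD4.{u} aD3.{u}
theorem aD5a : StD5a.{u} := Pool.Agent.Helper94.GU.hD5a.{u} aD1.{u} aD2.{u}
theorem aD5b : StD5b.{u} := Pool.Agent.Helper41.GU.hD5b.{u} 
theorem aD5 : StD5.{u} := Pool.Agent.Helper75.GU.hD5.{u} aB7.{u} aD4.{u} aD5a.{u} aD5b.{u}
theorem aD6 : StD6.{u} := Pool.Agent.Helper93.GU.hD6.{u} aD1.{u} aD2.{u}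
theorem aD7 : StD7.{u} := Pool.Agent.Helper65.GU.hD7.{u} aD3.{u} aD3b.{u} aD6.{u}
theorem aD8 : StD8.{u} := Pool.Agent.Helper81.GU.hD8.{u} 
theorem aD9 : StD9.{u} := Pool.Agent.Helper43.GU.hD9.{u} aB0.{u} aB7.{u} aD5.{u} aD7.{u} aD8.{u}
theorem aE0 : StE0.{u} := Pool.Agent.Helper39.GU.hE0.{u} 
theorem aEB : StEB.{u} := Pool.Agent.Helper67.GU.hEB.{u} aD2.{u}
theorem aE1 : StE1.{u} := Pool.Agent.Helper80.GU.hE1.{u} aB0.{u} aEB.{u}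
theorem aE2a : StE2a.{u} := Pool.Agent.Helper4.GU.hE2a.{u} aE0.{u}
theorem aE2b : StE2b.{u} := Pool.Agent.Helper29.GU.hE2b.{u} aE0.{u} aE2a.{u}
theorem aE2 : StE2.{u} := Pool.Agent.Helper84.GU.hE2.{u} aE2b.{u}
theorem aE12 : StE12.{u} := Pool.Agent.Helper15.GU.hE12.{u} aE1.{u} aE2.{u}
theorem aE3 : StE3.{u} := Pool.Agent.Helper61.GU.hE3.{u} aE2b.{u}
theorem aF1 : StF1.{u} := Pool.Agent.Helper27.GU.hF1.{u} 
theorem aF2 : StF2.{u} := Pool.Agent.Helper81.GU.hF2.{u} aB6.{u} aB7.{u} aE0.{u} aF1.{u}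
theorem aF3 : StF3.{u} := Pool.Agent.Helper94.GU.hF3.{u} aE0.{u}
theorem aF3c : StF3c.{u} := Pool.Agent.Helper27.GU.hF3c.{u} aF3.{u}
theorem aF4a : StF4a.{u} := Pool.Agent.Helper27.GU.hF4a.{u} aE0.{u}
theorem aF5a : StF5a.{u} := Pool.Agent.Helper93.GU.hF5a.{u} aE0.{u}
theorem aF5 : StF5.{u} := Pool.Agent.Helper93.GU.hF5.{u} aB0.{u} aB1.{u} aB2.{u} aB7.{u} aF3c.{u} aF5a.{u}
theorem aS0 : StS0.{u} := Pool.Agent.Helper61.GU.hS0.{u} 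
theorem aH1a : StH1a.{u} := Pool.Agent.Helper84.GU.hH1a.{u} 
theorem aH1b : StH1b.{u} := Pool.Agent.Helper4.GU.hH1b.{u} aH1a.{u}
theorem aH1c : StH1c.{u} := Pool.Agent.Helper7.GU.hH1c.{u} 
theorem aH1d : StH1d.{u} := Pool.Agent.Helper2.GU.hH1d.{u} 
theorem aH1 : StH1.{u} := Pool.Agent.Helper2.GU.hH1.{u} aH1b.{u} aH1c.{u} aH1d.{u}
theorem aH2 : StH2.{u} := Pool.Agent.Helper75.GU.hH2.{u} 
theorem aH3 : StH3.{u} := Pool.Agent.Helper28.GU.hH3.{u} 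
theorem aH4 : StH4.{u} := Pool.Agent.Helper68.GU.hH4.{u} aB7.{u}
theorem aB5 : StB5.{u} := Pool.Agent.Helper58.GU.hB5.{u} aB0.{u} aB3.{u} aC5.{u}
theorem aB45 : StB45.{u} := Pool.Agent.Helper79.GU.hB45.{u} aA0.{u} aB4.{u} aB5.{u}
theorem aF4 : StF4.{u} := Pool.Agent.Helper41.GU.hF4.{u} aB45.{u} aB7.{u} aE0.{u} aF3c.{u} aF4a.{u}
theorem aF : StF.{u} := Helper60.GU.hF.{u} aB0.{u} aB7.{u} aE0.{u} aE12.{u} aE3.{u} aF2.{u} aF3c.{u} aF4.{u} aF5.{u}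
theorem aS : StS.{u} := Pool.Agent.Helper75.GU.hS.{u} aB7.{u} aS0.{u} aD9.{u} aF.{u}
theorem aH5 : StH5.{u} := Pool.Agent.Helper67.GU.hH5.{u} aS.{u} aA5.{u} aB7.{u} aH1.{u} aH2.{u} aH4.{u}
theorem aGU : StGU.{u} := Pool.Agent.Helper85.GU.hGU.{u} aH3.{u} aH5.{u} aB7.{u}

end Pool.Agent.Helper91.GU
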