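import Mathlib

/-!
# Project GU (MP_b1e6de_al): common definitions

`REq v w`: the rows `v`, `w` lie in one orbit of `GL_n(A)`.  `Elem n A`: products of transvections.
`HId M`: `M` is joined to `1` by a path in `GL_n(A[X])`.  `row a c`: the row `(a; c)` of length `1 + r`.
-/

set_option autoImplicit false

namespace Pool.Agent.Helper91.GU

open Polynomial

universe u

/-- `v` and `w` are in the same orbit of `GL_n(A)` acting on rows from the right. -/
def REq {n : Type} [Fintype n] [DecidableEq n] {A : Type u} [CommRing A] (v w : n → A) : Prop :=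
  ∃ g : Matrix n n A, IsUnit g.det ∧ Matrix.vecMul v g = w

/-- the row `v` is unimodular -/
def Um {n : Type} [Fintype n] {A : Type u} [CommRing A] (v : n → A) : Prop :=
  ∃ y : n → A, v ⬝ᵥ y = 1

/-- products of transvections (the elementary group, as a submonoid of the matrix ring) -/
def Elem (n : Type) [Fintype n] [DecidableEq n] (A : Type u) [CommRing A] :
    Submonoid (Matrix n n A) :=
  Submonoid.closure {M | ∃ (i j : n) (c : A), i ≠ j ∧ M = Matrix.transvection i j c}

/-- elementary equivalence of rows -/
def EEq {n : Type} [Fintype n] [DecidableEq n] {A : Type u} [CommRing A] (v w : n → A) : Prop :=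
  ∃ e ∈ Elem n A, Matrix.vecMul v e = w

/-- the matrix `M` is homotopic to the identity: there is an invertible matrix over `A[X]` with
value `1` at `0` and `M` at `1` -/
def HId {n : Type} [Fintype n] [DecidableEq n] {A : Type u} [CommRing A] (M : Matrix n n A) :
    Prop :=
  ∃ P : Matrix n n A[X], IsUnit P.det ∧ P.map (eval 0) = 1 ∧ P.map (eval 1) = M

/-- the row `(a; c)` -/
def row {A : Type u} {r : ℕ} (a : A) (c : Fin r → A) : Unit ⊕ Fin r → A :=
  Sum.elim (fun _ => a) c

/-- the image of a row under a ring homomorphism -/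
def mp {n : Type} {A : Type u} {B : Type u} [CommRing A] [CommRing B] (φ : A →+* B) (v : n → A) :
    n → B := fun j => φ (v j)

/-- the ideal generated by the entries of a row -/
def idl {n : Type} {A : Type u} [CommRing A] (c : n → A) : Ideal A := Ideal.span (Set.range c)

/-- `1 + tᵀ c`, acting on rows by `x ↦ x + (x·t) c` -/
def theta {r : ℕ} {A : Type u} [CommRing A] (c t : Fin r → A) : Matrix (Fin r) (Fin r) A :=
  1 + Matrix.vecMulVec t c

/-- `(a; c) U(y) = (a - c·y; c)` -/
def lowU {r : ℕ} {A : Type u} [CommRing A] (y : Fin r → A) :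
    Matrix (Unit ⊕ Fin r) (Unit ⊕ Fin r) A :=
  Matrix.fromBlocks 1 0 (fun i _ => - y i) 1

/-- `(a; c) V(x) = (a; c - a x)` -/
def upV {r : ℕ} {A : Type u} [CommRing A] (x : Fin r → A) :
    Matrix (Unit ⊕ Fin r) (Unit ⊕ Fin r) A :=
  Matrix.fromBlocks 1 (fun _ j => - x j) 0 1

/-- a patching square: `Af = A_f`, `Ai = A_i`, `Afi = A_{fi}` -/
structure IsSq (A Af Ai Afi : Type u) [CommRing A] [CommRing Af] [CommRing Ai] [CommRing Afi]
    [Algebra A Af] [Algebra A Ai] [Algebra A Afi] [Algebra Af Afi] [Algebra Ai Afi]
    (f i : A) : Prop where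
  towf : IsScalarTower A Af Afi
  towi : IsScalarTower A Ai Afi
  cop : IsCoprime f i
  locf : IsLocalization.Away f Af
  loci : IsLocalization.Away i Ai
  locfi : IsLocalization.Away (f * i) Afi
  locfi' : IsLocalization.Away (algebraMap A Af i) Afi
  locif' : IsLocalization.Away (algebraMap A Ai f) Afi

end Pool.Agent.Helper91.GU
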