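import Pool.Agent.Helper91.GU.StF
import Pool.Agent.Helper15.GU.M_E12

/-!
# Project GU: S-CORE over an arbitrary Noetherian ring

The end of the proof of Theorem S (blocks E and F) without the dimension hypothesis.  The proof is the one of
module F (helper60) and module E12 (helper15) with the dimension hypothesis removed.
-/

set_option autoImplicit false

namespace Pool.Agent.Helper91.GU

open Polynomial Pool.Agent.Helper15.GU

universe u

/-- S-CORE.  `L` Noetherian, `(s+1)!` a unit, `s ≥ 1`, `(v₀;c)` unimodular over `L[X]`, `I = (c)`, `1 - a_k X^k ∈ I` for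
all `k ≥ k₀`, and for one such `k ≥ 1` which is a unit of `L` an elementary `e` with `(c e)_0 ≡ 1 - a_k X^k` modulo
`I²`.  Then `(v₀;c) ~ (1;0)`. -/
def StSC : Prop := ∀ (L : Type u) [CommRing L] [IsNoetherianRing L] (s : ℕ), 1 ≤ s →
  IsUnit ((s + 1).factorial : L) → ∀ (v₀ : L[X]) (c : Fin (s + 1) → L[X]), Um (row v₀ c) →
  ∀ (k₀ : ℕ) (a : ℕ → L), YK (idl c) k₀ a → ∀ k, k₀ ≤ k → 1 ≤ k → IsUnit (k : L) →
  ∀ e ∈ Elem (Fin (s + 1)) L[X], Matrix.vecMul c e 0 - (1 - C (a k) * X ^ k) ∈ idl c ^ 2 →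
  REq (row v₀ c) (row 1 0)

theorem framing_core (hE2 : StE2.{u}) (L : Type u) [CommRing L] (s : ℕ)
    (c : Fin (s + 1) → L[X]) (k₀ : ℕ) (a : ℕ → L) (hY : YK (idl c) k₀ a) (k : ℕ) (hk0 : k₀ ≤ k)
    (hk1 : 1 ≤ k) (hku : IsUnit (k : L)) (e₁ : Matrix (Fin (s + 1)) (Fin (s + 1)) L[X])
    (he₁ : e₁ ∈ Elem (Fin (s + 1)) L[X])
    (hγ : Matrix.vecMul c e₁ 0 - (1 - C (a k) * X ^ k) ∈ idl c ^ 2) :
    ∃ N₀ : ℕ, ∀ N, N₀ ≤ N → ∃ e ∈ Elem (Fin (s + 1)) L[X], ∃ b : Fin s → L,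
      (∀ j, C (b j) ∈ idl c) ∧ ∀ j, Matrix.vecMul c e j -
      (Fin.cons (1 - C (a k) * X ^ k) (fun j => C (b j) * X ^ N) : Fin (s + 1) → L[X]) j ∈
        idl c ^ 2 := by
  have hw : ∀ j : Fin s, ∃ N₀ : ℕ, ∀ N, N₀ ≤ N → ∃ (l : L[X]) (b : L), C b ∈ idl c ∧
      Matrix.vecMul c e₁ j.succ - l * (1 - C (a k) * X ^ k) - C b * X ^ N ∈ idl c ^ 2 :=
    fun j => hE2 L (idl c) k₀ a hY k hk0 hk1 hku _ (vecMul_mem_idl c e₁ j.succ)
  choose N₀ hN₀ using hw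
  refine ⟨Finset.univ.sup N₀, fun N hN => ?_⟩
  have hw2 : ∀ j : Fin s, ∃ (l : L[X]) (b : L), C b ∈ idl c ∧
      Matrix.vecMul c e₁ j.succ - l * (1 - C (a k) * X ^ k) - C b * X ^ N ∈ idl c ^ 2 :=
    fun j => hN₀ j N (le_trans (Finset.le_sup (Finset.mem_univ j)) hN)
  choose l b hb hlb using hw2
  obtain ⟨e₂, he₂, hv₂⟩ := exists_elem (A := L[X]) (0 : Fin (s + 1))
    (Fin.cons 0 l : Fin (s + 1) → L[X]) (Finset.univ.erase 0) (by simp)
  refine ⟨e₁ * e₂, Submonoid.mul_mem _ he₁ he₂, b, hb, fun j => ?_⟩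
  rw [← Matrix.vecMul_vecMul, hv₂]
  refine Fin.cases ?_ (fun i => ?_) j
  · simpa using hγ
  · have h1 : (i.succ : Fin (s + 1)) ∈ (Finset.univ.erase 0 : Finset (Fin (s + 1))) := by
      simp [Fin.succ_ne_zero]
    simp only [h1, if_true, Fin.cons_succ]
    have h2 : Matrix.vecMul c e₁ i.succ - l i * Matrix.vecMul c e₁ 0 - C (b i) * X ^ N
        = (Matrix.vecMul c e₁ i.succ - l i * (1 - C (a k) * X ^ k) - C (b i) * X ^ N)
          - l i * (Matrix.vecMul c e₁ 0 - (1 - C (a k) * X ^ k)) := by ring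
    rw [h2]
    exact Ideal.sub_mem _ (hlb i) (Ideal.mul_mem_left _ _ hγ)

theorem hSC (hB0 : StB0.{u}) (hB7 : StB7.{u}) (hE0 : StE0.{u}) (hE2 : StE2.{u})
    (hE3 : StE3.{u}) (hF2 : StF2.{u}) (hF3c : StF3c.{u}) (hF4 : StF4.{u}) (hF5 : StF5.{u}) :
    StSC.{u} := by
  intro L _ _ s hs hfac v₀ c hUm k₀ a hYK k hk0 hk1 hkU e₁ he₁ hγ
  obtain ⟨N₀, hN⟩ := framing_core hE2 L s c k₀ a hYK k hk0 hk1 hkU e₁ he₁ hγ
  obtain ⟨e, he, b, hb, hce⟩ := hN N₀ le_rfl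
  obtain ⟨-, -, -, -, -, hB0e, -⟩ := hB0 L[X] L[X] (RingHom.id _) (Fin (s + 1))
  obtain ⟨-, hedet, -, -, -⟩ := hB0e e he
  -- the ideal `I` is generated by `γ` and the `b_j X^N` modulo `I²`
  have hI : idl c ≤ Ideal.span (insert (1 - C (a k) * X ^ k)
      (Set.range fun j => C (b j) * X ^ N₀)) ⊔ idl c ^ 2 := by
    have h1 : ∀ l, Matrix.vecMul c e l ∈ Ideal.span (insert (1 - C (a k) * X ^ k)
        (Set.range fun j => C (b j) * X ^ N₀)) ⊔ idl c ^ 2 := by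
      intro l
      have h2 : Matrix.vecMul c e l = (Fin.cons (1 - C (a k) * X ^ k)
          (fun j => C (b j) * X ^ N₀) : Fin (s + 1) → L[X]) l + (Matrix.vecMul c e l -
          (Fin.cons (1 - C (a k) * X ^ k) (fun j => C (b j) * X ^ N₀) : Fin (s + 1) → L[X]) l) := by
        ring
      rw [h2]
      refine Submodule.add_mem_sup ?_ (hce l)
      refine Fin.cases ?_ (fun j => ?_) l
      · exact Ideal.subset_span (Set.mem_insert _ _)
      · exact Ideal.subset_span (Set.mem_insert_of_mem _ ⟨j, rfl⟩)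
    have h3 : Matrix.vecMul (Matrix.vecMul c e) e⁻¹ = c := by
      rw [Matrix.vecMul_vecMul, Matrix.mul_nonsing_inv e (by rw [hedet]; exact isUnit_one),
        Matrix.vecMul_one]
    refine Ideal.span_le.2 ?_
    rintro _ ⟨j, rfl⟩
    have h4 : c j = ∑ l, Matrix.vecMul c e l * e⁻¹ l j := by
      conv_lhs => rw [← h3]
      rfl
    rw [h4]
    exact Ideal.sum_mem _ fun l _ => Ideal.mul_mem_right _ _ (h1 l)
  obtain ⟨κ, g, hκ, hg, hgJ⟩ := hE3 L (idl c) k₀ a hYK k hk0 hk1 hkU s b N₀ hb hI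
  have hDat : Dat (idl c) k₀ a b κ g := ⟨hYK, hb, hκ, hg, hgJ⟩
  -- `v₀` is a unit modulo `I`
  have hv₀ : IsUnit (Ideal.Quotient.mk (idl c) v₀) := by
    obtain ⟨y, hy⟩ := hUm
    have h1 : v₀ * y (Sum.inl ()) + ∑ j, c j * y (Sum.inr j) = 1 := by
      have : (row v₀ c) ⬝ᵥ y = v₀ * y (Sum.inl ()) + ∑ j, c j * y (Sum.inr j) := by
        simp [dotProduct, row]
      rw [← this, hy]
    have h2 : Ideal.Quotient.mk (idl c) (∑ j, c j * y (Sum.inr j)) = 0 := by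
      rw [Ideal.Quotient.eq_zero_iff_mem]
      exact Ideal.sum_mem _ fun j _ => Ideal.mul_mem_right _ _ (Ideal.subset_span ⟨j, rfl⟩)
    have h3 : Ideal.Quotient.mk (idl c) v₀ * Ideal.Quotient.mk (idl c) (y (Sum.inl ())) = 1 := by
      have := congrArg (Ideal.Quotient.mk (idl c)) h1
      rw [map_add, h2, add_zero, map_mul, map_one] at this
      exact this
    exact IsUnit.of_mul_eq_one _ h3
  obtain ⟨p, G, q', uh, hDG, huh, hR⟩ := hF2 L (idl c) k₀ a s b κ g hDat hfac v₀ hv₀ N₀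
  obtain ⟨uh1, hu1, hu2⟩ := (hF3c L (idl c) k₀ a s b κ g hDat p G q' hDG N₀).1
    (C (Ideal.Quotient.mk (idl c) v₀)) 1
  obtain ⟨-, hE0b, -⟩ := hE0 L (idl c) k₀ a hYK
  have hdiff : uh1 - v₀ ∈ idl c := by
    rw [← Ideal.Quotient.eq_zero_iff_mem, map_sub, sub_eq_zero, ← hE0b uh1]
    obtain ⟨w, hw⟩ := hu1
    have := congrArg (eval 1) hw
    rw [eval_sub, eval_C, eval_mul, eval_sub, eval_one, eval_X, sub_self, zero_mul] at this
    exact sub_eq_zero.1 this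
  have k5 := hF5 L s hs c k₀ a b κ g hDat p G q' hDG N₀ k hk0 hkU e he hce v₀ uh1 hdiff hu2
  have k4 := hF4 L (idl c) k₀ a s b κ g hDat p G q' hDG N₀ v₀ uh uh1 hv₀ huh hu1 hu2
  obtain ⟨⟨-, -, htrans, -⟩, -⟩ := And.intro ((hB7 L[X] L[X] (RingHom.id _)).1
    (Unit ⊕ Fin (s + 1))) trivial
  exact htrans _ _ _ k5 (htrans _ _ _ k4 hR)


end Pool.Agent.Helper91.GU
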