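import Pool.Agent.Helper85.GU.M_GU
import Pool.Agent.Helper91.GU.StH
import Pool.Agent.Helper91.GU.All

/-!
# Project GU: the final theorem in its general form

`R` Noetherian local, `dim R ≤ d`, `A` a graded subalgebra of `R[X_1, .., X_n]`, `d + n ≤ 2 s`, `(s+1)!` a unit of `R`:
every unimodular row of length `s + 2` over `A` is the first row of a matrix of determinant `1`.
The proof is the one of module GU (helper85), for every `s` instead of `s = d - 1`.
-/

set_option autoImplicit false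

namespace Pool.Agent.Helper91.GU

open Polynomial

universe u

/-- the general form of Theorem GU -/
def StHR : Prop := ∀ (R : Type u) [CommRing R] [IsLocalRing R] [IsNoetherianRing R] (d n s : ℕ),
  1 ≤ s → ringKrullDim R ≤ d → d + n ≤ 2 * s → IsUnit ((s + 1).factorial : R) →
  ∀ A : Subalgebra R (MvPolynomial (Fin n) R), IsGr A →
  ∀ v w : Fin (s + 2) → A, ∑ j, v j * w j = 1 →
  ∃ M : Matrix (Fin (s + 2)) (Fin (s + 2)) A, M.det = 1 ∧ M 0 = v

theorem hHR (hH3 : StH3.{u}) (hH5 : StH5.{u}) (hB7 : StB7.{u}) : StHR.{u} := by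
  intro R _ _ _ d n s hs hdim hnd hfac A hgr v w hvw
  classical
  obtain ⟨A', hA', hfg, hgr', hmem⟩ := hH3 R n A hgr
    (Finset.univ.image (fun j => (v j : MvPolynomial (Fin n) R)) ∪
      Finset.univ.image (fun j => (w j : MvPolynomial (Fin n) R))) (by
      intro f hf
      rw [Finset.mem_union, Finset.mem_image, Finset.mem_image] at hf
      rcases hf with ⟨j, -, rfl⟩ | ⟨j, -, rfl⟩
      · exact (v j).2
      · exact (w j).2)
  have hv : ∀ j, (v j : MvPolynomial (Fin n) R) ∈ A' := fun j => hmem _ (by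
    rw [Finset.mem_union, Finset.mem_image]
    exact Or.inl ⟨j, Finset.mem_univ _, rfl⟩)
  have hw : ∀ j, (w j : MvPolynomial (Fin n) R) ∈ A' := fun j => hmem _ (by
    rw [Finset.mem_union, Finset.mem_image, Finset.mem_image]
    exact Or.inr ⟨j, Finset.mem_univ _, rfl⟩)
  have hUm : Um (row (⟨v 0, hv 0⟩ : A') (fun j : Fin (s + 1) => (⟨v j.succ, hv j.succ⟩ : A'))) := by
    refine ⟨row (⟨w 0, hw 0⟩ : A') (fun j : Fin (s + 1) => (⟨w j.succ, hw j.succ⟩ : A')), ?_⟩
    apply Subtype.ext
    have h0 : ((∑ j, v j * w j : A) : MvPolynomial (Fin n) R) = ((1 : A) : MvPolynomial (Fin n) R) :=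
      congrArg _ hvw
    rw [Fin.sum_univ_succ] at h0
    simp only [row, dotProduct, Fintype.sum_sum_type, Sum.elim_inl, Sum.elim_inr,
      Finset.univ_unique, Finset.sum_singleton]
    push_cast at h0 ⊢
    exact h0
  have h5 := hH5 R d n s hs hdim hnd hfac A' hfg hgr' _ _ hUm
  have h6 := ((hB7 A' A (Subalgebra.inclusion hA').toRingHom).1 (Unit ⊕ Fin (s + 1))).2.2.2.2.2.1
    _ _ h5
  have e1 : mp (Subalgebra.inclusion hA').toRingHom
      (row (⟨v 0, hv 0⟩ : A') (fun j : Fin (s + 1) => (⟨v j.succ, hv j.succ⟩ : A'))) =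
      row (v 0) (fun j : Fin (s + 1) => v j.succ) := by
    funext j
    rcases j with j | j <;> rfl
  have e2 : mp (Subalgebra.inclusion hA').toRingHom (row (1 : A') (0 : Fin (s + 1) → A')) =
      row (1 : A) 0 := by
    funext j
    rcases j with j | j
    · exact map_one _
    · exact map_zero _
  rw [e1, e2] at h6
  obtain ⟨M, hM, hM0⟩ := Pool.Agent.Helper85.GU.completion _ _ h6
  refine ⟨M.submatrix (Pool.Agent.Helper85.GU.eqv (s + 1)) (Pool.Agent.Helper85.GU.eqv (s + 1)),
    ?_, ?_⟩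
  · rw [Matrix.det_submatrix_equiv_self]
    exact hM
  · funext j
    rw [Matrix.submatrix_apply]
    have e3 : Pool.Agent.Helper85.GU.eqv (s + 1) 0 = Sum.inl () := rfl
    rw [e3, hM0]
    refine Fin.cases ?_ (fun j => ?_) j
    · rfl
    · rfl

/-- Theorem GU in the general form, without hypotheses -/
theorem aHR : StHR.{u} := hHR aH3.{u} aH5.{u} aB7.{u}

/-- the set form -/
theorem halfRange (h : StHR.{u}) (R : Type u) [CommRing R] [IsLocalRing R] [IsNoetherianRing R]
    (d n s : ℕ) (hs : 1 ≤ s) (hd : ringKrullDim R ≤ d) (hn : d + n ≤ 2 * s)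
    (hf : IsUnit ((s + 1).factorial : R)) (A : Subalgebra R (MvPolynomial (Fin n) R))
    (hA : ∀ f ∈ A, ∀ i : ℕ, MvPolynomial.homogeneousComponent i f ∈ A) :
    {v : Fin (s + 2) → A | Ideal.span (Set.range v) = ⊤} =
      Set.range (fun M : Matrix.SpecialLinearGroup (Fin (s + 2)) A =>
        (M : Matrix (Fin (s + 2)) (Fin (s + 2)) A) 0) := by
  ext v
  constructor
  · intro hv
    have h1 : (1 : A) ∈ Ideal.span (Set.range v) := by
      rw [show Ideal.span (Set.range v) = ⊤ from hv]
      exact Submodule.mem_top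
    rw [Ideal.mem_span_range_iff_exists_fun] at h1
    obtain ⟨w, hw⟩ := h1
    obtain ⟨M, hM, hM0⟩ := h R d n s hs hd hn hf A hA v w (by
      rw [← hw]
      exact Finset.sum_congr rfl fun j _ => mul_comm _ _)
    exact ⟨⟨M, hM⟩, hM0⟩
  · rintro ⟨⟨N, hN⟩, rfl⟩
    show Ideal.span (Set.range (N 0)) = ⊤
    rw [Ideal.eq_top_iff_one]
    have h2 : N * N.adjugate = 1 := by
      rw [Matrix.mul_adjugate, hN, one_smul]
    have h3 := congrFun (congrFun h2 0) 0
    rw [Matrix.mul_apply, Matrix.one_apply_eq] at h3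
    rw [← h3]
    exact Ideal.sum_mem _ fun j _ => Ideal.mul_mem_right _ _ (Ideal.subset_span ⟨j, rfl⟩)

end Pool.Agent.Helper91.GU
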