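import Pool.Agent.Helper96.GU.St

set_option autoImplicit false

namespace Pool.Agent.Helper91.GU

open Pool.Agent.Helper96.UT hiding StTOP TopV TopE tht Bd VC EC
open Pool.Agent.Helper96.GU

private theorem pow_of (g : FreeGroup (Fin 1)) : ∃ m : ℤ, g = (FreeGroup.of 0) ^ m := by
  induction g using FreeGroup.induction_on with
  | C1 => exact ⟨0, by simp⟩
  | of i => exact ⟨1, by rw [zpow_one, Subsingleton.elim i 0]⟩
  | inv_of i _ => exact ⟨-1, by rw [zpow_neg_one, Subsingleton.elim i 0]⟩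
  | mul a b ha hb =>
    obtain ⟨m, hm⟩ := ha
    obtain ⟨n, hn⟩ := hb
    exact ⟨m + n, by rw [hm, hn, zpow_add]⟩

theorem tCYG : StCYG := by
  intro U _ y hy
  let f : FreeGroup (Fin 1) →* U := FreeGroup.lift (fun _ => y)
  have hf : ∀ m : ℤ, f ((FreeGroup.of 0) ^ m) = y ^ m := by
    intro m
    rw [map_zpow]
    simp [f]
  have hsurj : Function.Surjective f := by
    intro x
    obtain ⟨m, hm⟩ := hy x
    exact ⟨(FreeGroup.of 0) ^ m, by rw [hf, hm]⟩
  refine ⟨(FreeGroup.of 0) ^ (orderOf y : ℤ), ?_⟩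
  have hker : Subgroup.normalClosure ({(FreeGroup.of 0) ^ (orderOf y : ℤ)} :
      Set (FreeGroup (Fin 1))) = f.ker := by
    apply le_antisymm
    · apply Subgroup.normalClosure_le_normal
      rintro s rfl
      change f _ = 1
      rw [hf, zpow_natCast, pow_orderOf_eq_one]
    · intro g hg
      obtain ⟨m, rfl⟩ := pow_of g
      have h1 : y ^ m = 1 := by rw [← hf]; exact hg
      obtain ⟨k, hk⟩ := orderOf_dvd_iff_zpow_eq_one.2 h1
      rw [hk, zpow_mul]
      exact Subgroup.zpow_mem _ (Subgroup.subset_normalClosure (Set.mem_singleton _)) k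
  exact ⟨(QuotientGroup.quotientKerEquivOfSurjective f hsurj).symm.trans
    (QuotientGroup.quotientMulEquivOfEq hker.symm)⟩

end Pool.Agent.Helper91.GU
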